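import Pool.Agent.H741R2.SST.Elim
import Pool.Agent.NPC.Dec

/-!
# The sampling algorithm (definitions)
-/

namespace Pool.Agent.H741R2.SST

open Pool.Agent.NPC

/-- coefficient of the face `g` in the boundary of the face `f` -/
def ent (g f : List ℕ) : ℤ :=
  ((f.zipIdx.filter (fun p => decide (g = f.filter (fun v => decide (v ≠ p.1))))).head?).elim 0
    (fun p => if p.2 % 2 = 0 then 1 else -1)

/-- `f` has the largest number of vertices -/
def top (L : List (List ℕ)) (f : List ℕ) : Bool := L.all (fun g => decide (g.length ≤ f.length))

/-- the columns, one for each face (zero for faces that are not of maximal dimension) -/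
def vecs (L : List (List ℕ)) : List (List ℤ) :=
  L.map (fun f => L.map (fun g => if top L f = true then ent g f else 0))

/-- the entries selected by a mask -/
def sel {α : Type} (b : List Bool) (vs : List α) : List α :=
  ((b.zip vs).filter (fun p => p.1)).map (fun p => p.2)

/-- independence of the vectors selected by a mask -/
def okI (vs : List (List ℤ)) (b : List Bool) : Bool := indQ vs.length (sel b vs)

/-- greedy mask -/
def greedy (vs : List (List ℤ)) : List Bool :=
  vs.foldl (fun acc _ => acc ++ [okI vs (acc ++ [true])]) []

/-- move the element `i` to `j` -/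
def swp (b : List Bool) (i j : ℕ) : List Bool :=
  b.zipIdx.map (fun p => if p.2 = i then false else if p.2 = j then true else p.1)

/-- one step of the chain with the random number `a < 2 w²` -/
def stp (vs : List (List ℤ)) (w : ℕ) (b : List Bool) (a : ℕ) : List Bool :=
  if a % 2 = 1 ∧ b.getD (a / 2 % w) false = true ∧ b.getD (a / 2 / w) true = false ∧
    okI vs (swp b (a / 2 % w) (a / 2 / w)) = true then swp b (a / 2 % w) (a / 2 / w) else b

/-- `t` steps of the chain with the random number `R` -/
def chain (vs : List (List ℤ)) (w : ℕ) (t : ℕ) (b : List Bool) (R : ℕ) : List Bool × ℕ :=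
  (fun s : List Bool × ℕ => (stp vs w s.1 (s.2 % (2 * w * w)), s.2 / (2 * w * w)))^[t] (b, R)

/-- doubling a list of masks, capped -/
def dbl (P : ℕ) (l : List (List Bool)) : List (List Bool) :=
  if 2 * l.length ≤ P then l.flatMap (fun r => [false :: r, true :: r]) else l

/-- all masks of length `n`, if `2 ^ n ≤ P` -/
def allM (P n : ℕ) : List (List Bool) := (dbl P)^[n] [[]]

/-- the bases -/
def bases (P : ℕ) (vs : List (List ℤ)) : List (List Bool) :=
  (allM P vs.length).filter (fun b => okI vs b &&
    decide ((b.filter (fun x => x)).length = ((greedy vs).filter (fun x => x)).length))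

/-- one step of the dynamic programme -/
def nextC (vs : List (List ℤ)) (w : ℕ) (Bs : List (List Bool)) (cs : List ℕ) : List ℕ :=
  Bs.map (fun b' => (((Bs.zip cs).flatMap (fun p =>
    ((List.range (2 * w * w)).filter (fun a => decide (stp vs w p.1 a = b'))).map
      (fun _ => p.2)))).sum)

/-- the counts after `t` steps -/
def counts (vs : List (List ℤ)) (w : ℕ) (Bs : List (List Bool)) (t : ℕ) : List ℕ :=
  (nextC vs w Bs)^[t] (Bs.map (fun b => if b = greedy vs then 1 else 0))

/-- the weights of the correction law -/
def weights (N D Wt : ℕ) (cs : List ℕ) : List ℕ := cs.map (fun c => Wt * 2 ^ D - N * (2 ^ D - 1) * c)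

/-- choose an entry of a weighted list -/
def pick (l : List (List Bool × ℕ)) (R : ℕ) : ℕ × Option (List Bool) :=
  l.foldl (fun s p => match s.2 with
    | some _ => s
    | none => if s.1 < p.2 then (0, some p.1) else (s.1 - p.2, none)) (R, none)

/-- the faces kept: those chosen and those that are not of maximal dimension -/
def outL (L : List (List ℕ)) (b : List Bool) : List (List ℕ) :=
  ((L.zip b).filter (fun p => p.2 || !(top L p.1))).map (fun p => p.1)

/-- the base `w = 2 ^ size n` -/
def wOf (L : List (List ℕ)) : ℕ := 2 ^ L.length.size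

/-- number of steps of the chain -/
def tOf (L : List (List ℕ)) (D : ℕ) : ℕ := 8 * wOf L * wOf L * (D + L.length)

/-- states: faces, `D` in unary, phase, counter, pad -/
abbrev St : Type := List (List ℕ) × List Unit × ℕ × List Unit × List Unit

/-- number of coins used in a state -/
def coins (s : St) : ℕ :=
  if s.2.2.1 = 0 then s.2.1.length + tOf s.1 s.2.1.length * (1 + 2 * s.1.length.size)
  else if s.2.2.1 = 1 then 0
  else s.1.length + tOf s.1 s.2.1.length * (1 + 2 * s.1.length.size)

/-- one round of the algorithm: output or next state -/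
def round (s : St) (r : List Bool) : List Bool ⊕ St :=
  if s.2.2.1 = 0 then
    (if valB r % 2 ^ s.2.1.length = 0 then
      Sum.inr (s.1, s.2.1, 1, List.replicate s.1.length (), [()])
    else Sum.inl (bits (outL s.1 (chain (vecs s.1) (wOf s.1) (tOf s.1 s.2.1.length)
      (greedy (vecs s.1)) (valB r / 2 ^ s.2.1.length)).1)))
  else if s.2.2.1 = 1 then
    (if s.2.2.2.1 = [] then Sum.inr (s.1, s.2.1, 2, [], s.2.2.2.2)
    else Sum.inr (s.1, s.2.1, 1, s.2.2.2.1.tail, s.2.2.2.2 ++ s.2.2.2.2))
  else
    ((pick ((bases s.2.2.2.2.length (vecs s.1)).zip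
      (weights (bases s.2.2.2.2.length (vecs s.1)).length s.2.1.length
        ((2 * wOf s.1 * wOf s.1) ^ tOf s.1 s.2.1.length)
        (counts (vecs s.1) (wOf s.1) (bases s.2.2.2.2.length (vecs s.1))
          (tOf s.1 s.2.1.length)))) (valB r)).2).elim (Sum.inr s)
      (fun b => Sum.inl (bits (outL s.1 b)))

/-- the body of the machine -/
def FF (y : List Bool) : List Bool :=
  (unbits St (unpair y).2).elim [] (fun s => (round s (unpair y).1).elim (fun o => true :: o)
    (fun s' => false :: (List.replicate (coins s') true ++ false :: bits s')))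

/-- the initial state -/
def init (K : ℕ) (x : List Bool) (L : List (List ℕ)) : St :=
  (L, List.replicate (K * (x.length + 1)) (), 0, [], [])

/-- the preparation -/
def AA (K : ℕ) (x : List Bool) : List Bool :=
  (unbits (List (List ℕ)) x).elim []
    (fun L => List.replicate (coins (init K x L)) true ++ false :: bits (init K x L))

end Pool.Agent.H741R2.SST
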