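import Pool.Agent.H741R2.SST.AlgPoly1

/-!
# The rounds of the algorithm run in polynomial time
-/

namespace Pool.Agent.NPC.SST

open Pool.Agent.NPC Pool.Agent.H741R2.SST

variable {α : Type} [TEnc α]

theorem length_swp (b : List Bool) (i j : ℕ) : (swp b i j).length = b.length := by
  unfold swp
  simp

theorem length_stp (vs : List (List ℤ)) (w : ℕ) (b : List Bool) (a : ℕ) :
    (stp vs w b a).length = b.length := by
  unfold stp
  split_ifs
  · exact length_swp _ _ _
  · rfl

theorem chain_inv (vs : List (List ℤ)) (w t : ℕ) (b : List Bool) (R : ℕ) :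
    (chain vs w t b R).1.length = b.length ∧ (chain vs w t b R).2 ≤ R := by
  unfold chain
  induction t with
  | zero => exact ⟨rfl, le_rfl⟩
  | succ t ih =>
    rw [Function.iterate_succ_apply']
    refine ⟨(length_stp _ _ _ _).trans ih.1, ?_⟩
    exact (Nat.div_le_self _ _).trans ih.2

theorem chain_poly {vs : α → List (List ℤ)} {w t : α → ℕ} {b : α → List Bool} {R : α → ℕ}
    (hvs : Poly vs) (hw : Poly w) (ht : UPoly t) (hb : Poly b) (hR : Poly R) :
    Poly (fun a => chain (vs a) (w a) (t a) (b a) (R a)) := by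
  unfold chain
  refine iterB (n := t) (s := fun a => (b a, R a))
    (F := fun a (s : List Bool × ℕ) =>
      (stp (vs a) (w a) s.1 (s.2 % (2 * w a * w a)), s.2 / (2 * w a * w a)))
    (B := fun a => (4 * sz (b a) + 1) + 2 * sz (R a) + 1) ht (by fun_prop) (by fun_prop)
    (((((PB.const 4).mul (PB.sz hb)).add (PB.const 1)).add ((PB.const 2).mul (PB.sz hR))).add
      (PB.const 1)) ?_
  intro a k _
  have h := chain_inv (vs a) (w a) k (b a) (R a)
  unfold chain at h
  set s := (fun s : List Bool × ℕ =>
      (stp (vs a) (w a) s.1 (s.2 % (2 * w a * w a)), s.2 / (2 * w a * w a)))^[k] (b a, R a)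
  have h1 : sz s = sz s.1 + sz s.2 + 1 := by
    obtain ⟨x, y⟩ := s
    simp
  have h2 := sz_listBool s.1 (n := sz (b a)) (by
    have := length_lt_sz (b a)
    omega)
  have h3 := sz_nat_mono_le h.2
  omega

theorem dbl_inv {P n : ℕ} {l : List (List Bool)} (h : l.length ≤ P + 1 ∧ ∀ b ∈ l, b.length ≤ n) :
    (dbl P l).length ≤ P + 1 ∧ ∀ b ∈ dbl P l, b.length ≤ n + 1 := by
  unfold dbl
  split_ifs with h1
  · constructor
    · have : (l.flatMap (fun r => [false :: r, true :: r])).length = l.length * 2 := by
        simp [List.length_flatMap]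
      omega
    · intro b hb
      rw [List.mem_flatMap] at hb
      obtain ⟨r, hr, hb⟩ := hb
      have h2 := h.2 r hr
      simp only [List.mem_cons, List.not_mem_nil, or_false] at hb
      rcases hb with rfl | rfl <;> simp <;> omega
  · exact ⟨h.1, fun b hb => (h.2 b hb).trans (Nat.le_succ n)⟩

theorem allM_inv (P n : ℕ) :
    (allM P n).length ≤ P + 1 ∧ ∀ b ∈ allM P n, b.length ≤ n := by
  unfold allM
  induction n with
  | zero => simp
  | succ n ih =>
    rw [Function.iterate_succ_apply']
    exact dbl_inv ih

theorem allM_poly {P n : α → ℕ} (hP : UPoly P) (hn : UPoly n) :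
    Poly (fun a => allM (P a) (n a)) := by
  have hP' := hP.toPoly
  unfold allM
  refine iterB (n := n) (s := fun _ => [[]]) (F := fun a l => dbl (P a) l)
    (B := fun a => (P a + 1) * ((4 * n a + 1) + 1) + 1) hn (by fun_prop) ?_
    ((((PB.u hP).add (PB.const 1)).mul ((((PB.const 4).mul (PB.u hn)).add (PB.const 1)).add
      (PB.const 1))).add (PB.const 1)) ?_
  · unfold dbl
    fun_prop
  · intro a k hk
    have h := allM_inv (P a) k
    unfold allM at h
    have h2 := sz_le_length_mul ((dbl (P a))^[k] [[]]) (4 * n a + 1) (fun b hb =>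
      sz_listBool b ((h.2 b hb).trans hk))
    exact h2.trans (Nat.add_le_add_right (Nat.mul_le_mul_right ((4 * n a + 1) + 1) (h.1)) 1)

theorem bases_poly {P : α → ℕ} {vs : α → List (List ℤ)} (hP : UPoly P) (hvs : Poly vs) :
    Poly (fun a => bases (P a) (vs a)) := by
  unfold bases
  have h := allM_poly hP (UPoly.length hvs)
  fun_prop

theorem nextC_poly {vs : α → List (List ℤ)} {w : α → ℕ} {Bs : α → List (List Bool)}
    {cs : α → List ℕ} (hvs : Poly vs) (hw : UPoly w) (hBs : Poly Bs) (hcs : Poly cs) :
    Poly (fun a => nextC (vs a) (w a) (Bs a) (cs a)) := by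
  have hw' := hw.toPoly
  have hr : Poly (fun a => List.range (2 * w a * w a)) :=
    (((UPoly.const 2).mul hw).mul hw).range
  unfold nextC
  have h2 : Poly (fun p : (α × List Bool) × (List Bool × ℕ) =>
      ((List.range (2 * w p.1.1 * w p.1.1)).filter
        (fun a => decide (stp (vs p.1.1) (w p.1.1) p.2.1 a = p.1.2))).map (fun _ => p.2.2)) := by
    have h3 : Poly (fun p : (α × List Bool) × (List Bool × ℕ) =>
      List.range (2 * w p.1.1 * w p.1.1)) :=
      hr.comp (f := fun p : (α × List Bool) × (List Bool × ℕ) => p.1.1) (by fun_prop)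
    fun_prop
  have h4 : Poly (fun p : α × List Bool => ((Bs p.1).zip (cs p.1))) := by fun_prop
  have h5 := Poly.flatMap (l := fun p : α × List Bool => ((Bs p.1).zip (cs p.1)))
    (F := fun p q => ((List.range (2 * w p.1 * w p.1)).filter
        (fun a => decide (stp (vs p.1) (w p.1) q.1 a = p.2))).map (fun _ => q.2)) h4 h2
  exact Poly.map hBs (Poly.sum h5)

theorem nextC_le {vs : List (List ℤ)} {w : ℕ} {Bs : List (List Bool)} {cs : List ℕ} {C : ℕ}
    (h : ∀ c ∈ cs, c ≤ C) : ∀ c ∈ nextC vs w Bs cs, c ≤ (Bs.length * (2 * w * w)) * C := by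
  intro c hc
  unfold nextC at hc
  rw [List.mem_map] at hc
  obtain ⟨b', _, rfl⟩ := hc
  refine (List.sum_le_card_nsmul _ C ?_).trans ?_
  · intro x hx
    rw [List.mem_flatMap] at hx
    obtain ⟨p, hp, hx⟩ := hx
    rw [List.mem_map] at hx
    obtain ⟨_, _, rfl⟩ := hx
    exact h _ (List.of_mem_zip hp).2
  · rw [smul_eq_mul]
    apply Nat.mul_le_mul_right
    rw [List.length_flatMap]
    refine (List.sum_le_card_nsmul _ (2 * w * w) ?_).trans ?_
    · intro x hx
      rw [List.mem_map] at hx
      obtain ⟨p, _, rfl⟩ := hx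
      rw [List.length_map]
      refine (List.length_filter_le _ _).trans ?_
      rw [List.length_range]
    · rw [List.length_map, List.length_zip, smul_eq_mul]
      exact Nat.mul_le_mul_right _ (min_le_left _ _)

theorem counts_inv (vs : List (List ℤ)) (w : ℕ) (Bs : List (List Bool)) (t : ℕ) :
    (counts vs w Bs t).length = Bs.length ∧
      ∀ c ∈ counts vs w Bs t, c ≤ (Bs.length * (2 * w * w)) ^ t := by
  unfold counts
  induction t with
  | zero =>
    simp only [Function.iterate_zero, id_eq, List.length_map, true_and, pow_zero]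
    intro c hc
    rw [List.mem_map] at hc
    obtain ⟨b, _, rfl⟩ := hc
    split_ifs <;> omega
  | succ t ih =>
    rw [Function.iterate_succ_apply']
    refine ⟨by simp [nextC], ?_⟩
    rw [pow_succ, mul_comm]
    exact nextC_le ih.2

theorem counts_poly {vs : α → List (List ℤ)} {w t : α → ℕ} {Bs : α → List (List Bool)}
    (hvs : Poly vs) (hw : UPoly w) (hBs : Poly Bs) (ht : UPoly t) :
    Poly (fun a => counts (vs a) (w a) (Bs a) (t a)) := by
  have hw' := hw.toPoly
  unfold counts
  refine iterB (n := t) (s := fun a => (Bs a).map (fun b => if b = greedy (vs a) then 1 else 0))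
    (F := fun a cs => nextC (vs a) (w a) (Bs a) cs)
    (B := fun a => (Bs a).length * ((4 * (t a * ((Bs a).length * (2 * w a * w a)).size + 1) + 1)
      + 1) + 1) ht (by fun_prop)
    (nextC_poly (by fun_prop) (hw.comp (by fun_prop)) (by fun_prop) (by fun_prop)) ?_ ?_
  · have h1 : PB (fun a => ((Bs a).length * (2 * w a * w a)).size) := PB.size (by fun_prop)
    exact (((PB.len hBs).mul (((((PB.const 4).mul (((PB.u ht).mul h1).add (PB.const 1))).add
      (PB.const 1)).add (PB.const 1)))).add (PB.const 1))
  · intro a k hk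
    have h := counts_inv (vs a) (w a) (Bs a) k
    unfold counts at h
    set s := (nextC (vs a) (w a) (Bs a))^[k]
      ((Bs a).map (fun b => if b = greedy (vs a) then 1 else 0)) with hs
    have h2 := sz_le_length_mul s (4 * (t a * ((Bs a).length * (2 * w a * w a)).size + 1) + 1)
      (fun c hc => by
        have h3 := sz_nat_le c
        have h4 := Nat.size_le_size (h.2 c hc)
        have h5 := size_pow_le ((Bs a).length * (2 * w a * w a)) k
        have h6 := Nat.mul_le_mul_right ((Bs a).length * (2 * w a * w a)).size hk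
        omega)
    rw [h.1] at h2
    exact h2

theorem weights_poly {N D Wt : α → ℕ} {cs : α → List ℕ} (hN : Poly N) (hD : UPoly D)
    (hW : Poly Wt) (hcs : Poly cs) : Poly (fun a => weights (N a) (D a) (Wt a) (cs a)) := by
  have h2 : Poly (fun a => 2 ^ D a) := Poly.npow (Poly.const 2) hD
  have key : ∀ u : α → ℕ, Poly u →
      Poly (fun a => (cs a).map (fun c => Wt a * u a - N a * (u a - 1) * c)) := by
    intro u hu
    fun_prop
  exact key _ h2

/-- one step of the choice -/
def pickStep (s : ℕ × Option (List Bool)) (p : List Bool × ℕ) : ℕ × Option (List Bool) :=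
  match s.2 with
  | some _ => s
  | none => if s.1 < p.2 then (0, some p.1) else (s.1 - p.2, none)

theorem pickStep_eq (s : ℕ × Option (List Bool)) (p : List Bool × ℕ) :
    pickStep s p = s.2.elim (if s.1 < p.2 then (0, some p.1) else (s.1 - p.2, none))
      (fun _ => s) := by
  unfold pickStep
  cases s.2 <;> rfl

theorem pick_inv (l₀ : List (List Bool × ℕ)) : ∀ (l : List (List Bool × ℕ))
    (s : ℕ × Option (List Bool)), (∀ p ∈ l, p ∈ l₀) → sz s.2 ≤ sz l₀ + 2 →
    (l.foldl pickStep s).1 ≤ s.1 ∧ sz (l.foldl pickStep s).2 ≤ sz l₀ + 2 := by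
  intro l
  induction l with
  | nil => intro s _ h; exact ⟨le_rfl, h⟩
  | cons p l ih =>
    intro s hl h
    rw [List.foldl_cons]
    have h1 : (pickStep s p).1 ≤ s.1 ∧ sz (pickStep s p).2 ≤ sz l₀ + 2 := by
      rw [pickStep_eq]
      cases hs : s.2 with
      | some b =>
        rw [Option.elim_some]
        rw [hs] at h
        rw [hs]
        exact ⟨le_rfl, h⟩
      | none =>
        rw [Option.elim_none]
        have h2 : sz p < sz l₀ := sz_le_of_mem (hl p (by simp))
        have h3 : sz p = sz p.1 + sz p.2 + 1 := by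
          obtain ⟨x, y⟩ := p
          simp
        have h4 : sz (none : Option (List Bool)) = 1 := rfl
        split_ifs
        · refine ⟨Nat.zero_le _, ?_⟩
          rw [sz_some]
          omega
        · refine ⟨Nat.sub_le _ _, ?_⟩
          simp only
          omega
    have h5 := ih (pickStep s p) (fun q hq => hl q (List.mem_cons_of_mem _ hq)) h1.2
    exact ⟨h5.1.trans h1.1, h5.2⟩

theorem pick_poly {l : α → List (List Bool × ℕ)} {R : α → ℕ} (hl : Poly l) (hR : Poly R) :
    Poly (fun a => pick (l a) (R a)) := by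
  have e : ∀ a, (l a).foldl pickStep (R a, none) = pick (l a) (R a) := fun a => rfl
  refine (foldlB (l := l) (s := fun a => (R a, none)) (F := fun _ s p => pickStep s p)
    (B := fun a => 2 * sz (R a) + (sz (l a) + 2) + 1) hl (by fun_prop) ?_
    ((((PB.const 2).mul (PB.sz hR)).add ((PB.sz hl).add (PB.const 2))).add (PB.const 1))
    ?_).congr e
  · simp only [pickStep_eq]
    fun_prop
  · intro a k _
    have h := pick_inv (l a) ((l a).take k) (R a, none) (fun p hp => List.mem_of_mem_take hp) (by
      have h4 : sz (none : Option (List Bool)) = 1 := rfl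
      simp only
      omega)
    set s := ((l a).take k).foldl pickStep (R a, none)
    have h1 : sz s = sz s.1 + sz s.2 + 1 := by
      obtain ⟨x, y⟩ := s
      simp
    have h3 := sz_nat_mono_le h.1
    simp only at h3
    change sz s ≤ _
    omega

theorem outL_poly {L : α → List (List ℕ)} {b : α → List Bool} (hL : Poly L) (hb : Poly b) :
    Poly (fun a => outL (L a) (b a)) := by
  unfold outL
  fun_prop

attribute [fun_prop] chain_poly weights_poly pick_poly outL_poly

theorem two_pow_size_le (n : ℕ) : 2 ^ n.size ≤ 2 * n + 1 := by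
  rcases Nat.eq_zero_or_pos n with rfl | hn
  · simp
  · have h1 : 0 < n.size := Nat.size_pos.2 hn
    have h2 : 2 ^ (n.size - 1) ≤ n := by
      by_contra h
      push Not at h
      have := Nat.size_le.2 h
      omega
    have h3 : 2 ^ n.size = 2 * 2 ^ (n.size - 1) := by
      rw [← pow_succ']
      congr 1
      omega
    omega

theorem wOf_poly {L : α → List (List ℕ)} (hL : Poly L) : UPoly (fun a => wOf (L a)) := by
  unfold wOf
  have h1 : Poly (fun a => 2 ^ (L a).length.size) :=
    Poly.npow (Poly.const 2) (uSize (Poly.length hL))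
  exact UPoly.of_le h1 (((UPoly.const 2).mul (UPoly.length hL)).add (UPoly.const 1))
    (fun a => two_pow_size_le _)

theorem tOf_poly {L : α → List (List ℕ)} {D : α → ℕ} (hL : Poly L) (hD : UPoly D) :
    UPoly (fun a => tOf (L a) (D a)) := by
  unfold tOf
  exact (((UPoly.const 8).mul (wOf_poly hL)).mul (wOf_poly hL)).mul (hD.add (UPoly.length hL))

theorem uite {p : α → Prop} [DecidablePred p] {m n : α → ℕ} (hp : Poly (fun a => decide (p a)))
    (hm : UPoly m) (hn : UPoly n) : UPoly (fun a => if p a then m a else n a) :=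
  (Poly.ite hp hm hn).congr fun a => by by_cases h : p a <;> simp [h]

theorem coins_poly {s : α → St} (hs : Poly s) : UPoly (fun a => coins (s a)) := by
  unfold coins
  have hD : UPoly (fun a => (s a).2.1.length) := UPoly.length (by fun_prop)
  have hL : Poly (fun a => (s a).1) := by fun_prop
  have h1 : UPoly (fun a => tOf (s a).1 (s a).2.1.length * (1 + 2 * (s a).1.length.size)) :=
    (tOf_poly hL hD).mul ((UPoly.const 1).add ((UPoly.const 2).mul (uSize (Poly.length hL))))
  exact uite (by fun_prop) (hD.add h1) (uite (by fun_prop) (UPoly.const 0)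
    ((UPoly.length hL).add h1))

end Pool.Agent.NPC.SST
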