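import Pool.Agent.H741R2.SST.PB
import Pool.Agent.H741R2.SST.Alg

/-!
# The independence test runs in polynomial time
-/

namespace Pool.Agent.NPC.SST

open Pool.Agent.NPC Pool.Agent.H741R2.SST

variable {α : Type} [TEnc α]

theorem ent_poly {g f : α → List ℕ} (hg : Poly g) (hf : Poly f) :
    Poly (fun a => ent (g a) (f a)) := by
  unfold ent
  fun_prop

theorem top_poly {L : α → List (List ℕ)} {f : α → List ℕ} (hL : Poly L) (hf : Poly f) :
    Poly (fun a => top (L a) (f a)) := by
  unfold top
  fun_prop

attribute [fun_prop] ent_poly top_poly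

theorem vecs_poly {L : α → List (List ℕ)} (hL : Poly L) : Poly (fun a => vecs (L a)) := by
  unfold vecs
  fun_prop

theorem sel_poly {β : Type} [TEnc β] {b : α → List Bool} {vs : α → List β} (hb : Poly b)
    (hvs : Poly vs) : Poly (fun a => sel (b a) (vs a)) := by
  unfold sel
  fun_prop

attribute [fun_prop] vecs_poly sel_poly Poly.zipWith

/-- a rewriting of the elimination step -/
theorem elimStep_eq (m : ℤ) (o : Option (List (List ℤ))) :
    elimStep m o = o.elim none (fun l => (l.head?).elim (some []) (fun v =>
      ((v.zipIdx.filter (fun p => decide (p.1 % m ≠ 0))).head?).elim none (fun p =>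
        some (l.tail.map (fun u =>
          List.zipWith (fun a b => (p.1 * a - u.getD p.2 0 * b) % m) u v))))) := by
  cases o with
  | none => rfl
  | some l =>
    cases l with
    | nil => rfl
    | cons v us =>
      simp only [elimStep, Option.elim_some, List.head?_cons, List.tail_cons, List.head?_filter]
      cases List.find? (fun p => decide (p.1 % m ≠ 0)) v.zipIdx <;> rfl

theorem elimStep_poly {m : α → ℕ} {o : α → Option (List (List ℤ))} (hm : Poly m) (ho : Poly o) :
    Poly (fun a => elimStep (m a : ℤ) (o a)) := by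
  simp only [elimStep_eq]
  fun_prop

/-- the invariant of the elimination -/
def Inv (A B : ℕ) (o : Option (List (List ℤ))) : Prop :=
  ∀ l, o = some l → l.length ≤ A ∧ ∀ v ∈ l, v.length ≤ A ∧ ∀ e ∈ v, sz e ≤ B

theorem Inv.sz_le {A B : ℕ} {o : Option (List (List ℤ))} (h : Inv A B o) :
    sz o ≤ A * (A * (B + 1) + 1 + 1) + 1 + 2 := by
  cases o with
  | none =>
    have : sz (none : Option (List (List ℤ))) = 1 := rfl
    omega
  | some l =>
    obtain ⟨h1, h2⟩ := h l rfl
    rw [sz_some]
    have h3 : sz l ≤ l.length * (A * (B + 1) + 1 + 1) + 1 := by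
      apply sz_le_length_mul
      intro v hv
      have h4 := sz_le_length_mul v B (h2 v hv).2
      have h5 := Nat.mul_le_mul_right (B + 1) (h2 v hv).1
      omega
    have h6 := Nat.mul_le_mul_right (A * (B + 1) + 1 + 1) h1
    omega

theorem sz_emod_le (a : ℤ) (m : ℕ) : sz (a % ((m + 1 : ℕ) : ℤ)) ≤ 4 * (m + 1).size + 5 := by
  have h1 := sz_int_le (a % ((m + 1 : ℕ) : ℤ))
  have h2 : (a % ((m + 1 : ℕ) : ℤ)).natAbs < m + 1 := by
    have h3 := Int.emod_nonneg a (b := ((m + 1 : ℕ) : ℤ)) (by positivity)
    have h4 := Int.emod_lt_of_pos a (b := ((m + 1 : ℕ) : ℤ)) (by positivity)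
    omega
  have h5 := Nat.size_le_size h2.le
  omega

theorem Inv.step {A B m : ℕ} (hB : 4 * (m + 1).size + 5 ≤ B) {o : Option (List (List ℤ))}
    (h : Inv A B o) : Inv A B (elimStep ((m + 1 : ℕ) : ℤ) o) := by
  intro l hl
  cases o with
  | none => simp [elimStep] at hl
  | some l' =>
    obtain ⟨h1, h2⟩ := h l' rfl
    cases l' with
    | nil =>
      simp only [elimStep, Option.some.injEq] at hl
      subst hl
      simp
    | cons v us =>
      simp only [elimStep] at hl
      split at hl
      · simp at hl
      · rename_i p _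
        rw [Option.some.injEq] at hl
        subst hl
        rw [List.length_map]
        simp only [List.length_cons] at h1
        refine ⟨by omega, fun u hu => ?_⟩
        rw [List.mem_map] at hu
        obtain ⟨u', hu', rfl⟩ := hu
        constructor
        · rw [List.length_zipWith]
          exact (min_le_right _ _).trans (h2 v (by simp)).1
        · intro e he
          rw [List.mem_iff_getElem] at he
          obtain ⟨i, hi, rfl⟩ := he
          rw [List.getElem_zipWith]
          exact (sz_emod_le _ m).trans hB

theorem indMod_poly {m : α → ℕ} {vs : α → List (List ℤ)} (hm : Poly m) (hvs : Poly vs) :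
    Poly (fun a => indMod ((m a + 1 : ℕ) : ℤ) (vs a)) := by
  unfold indMod
  apply Poly.isSome
  have hB : PB (fun a => sz (vs a) + (4 * (m a + 1).size + 5)) :=
    (PB.sz hvs).add (((PB.const 4).mul (PB.size (Poly.succ hm))).add (PB.const 5))
  refine iterB (n := fun a => (vs a).length) (s := fun a => some (vs a))
    (F := fun a o => elimStep ((m a + 1 : ℕ) : ℤ) o)
    (B := fun a => sz (vs a) * (sz (vs a) * ((sz (vs a) + (4 * (m a + 1).size + 5)) + 1) + 1 + 1)
      + 1 + 2) (UPoly.length hvs) (by fun_prop)
    (elimStep_poly (by fun_prop) (by fun_prop)) ?_ ?_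
  · exact ((((PB.sz hvs).mul ((((PB.sz hvs).mul (hB.add (PB.const 1))).add (PB.const 1)).add
      (PB.const 1))).add (PB.const 1)).add (PB.const 2))
  · intro a k _
    apply Inv.sz_le
    have h0 : Inv (sz (vs a)) (sz (vs a) + (4 * (m a + 1).size + 5)) (some (vs a)) := by
      intro l hl
      rw [Option.some.injEq] at hl
      subst hl
      refine ⟨(length_lt_sz _).le, fun v hv => ?_⟩
      have h1 := sz_le_of_mem hv
      have h2 := length_lt_sz v
      refine ⟨by omega, fun e he => ?_⟩
      have h3 := sz_le_of_mem he
      omega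
    induction k with
    | zero => exact h0
    | succ k ih =>
      rw [Function.iterate_succ_apply']
      exact (ih (by omega)).step (by omega)

theorem indQ_poly {k : α → ℕ} {vs : α → List (List ℤ)} (hk : UPoly k) (hvs : Poly vs) :
    Poly (fun a => indQ (k a) (vs a)) := by
  unfold indQ
  have hu : UPoly (fun a => 2 * ((k a * k a + 1) * (k a * k a + 1)) + 1) :=
    ((UPoly.const 2).mul (((hk.mul hk).add (UPoly.const 1)).mul ((hk.mul hk).add
      (UPoly.const 1)))).add (UPoly.const 1)
  refine Poly.any (p := fun a (m : ℕ) => indMod ((m : ℤ) + 1) (vs a)) hu.range ?_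
  have h := indMod_poly (α := α × ℕ) (m := fun p => p.2) (vs := fun p => vs p.1) (by fun_prop)
    (by fun_prop)
  exact h.congr fun a => by push_cast; rfl

theorem okI_poly {vs : α → List (List ℤ)} {b : α → List Bool} (hvs : Poly vs) (hb : Poly b) :
    Poly (fun a => okI (vs a) (b a)) := by
  unfold okI
  exact indQ_poly (UPoly.length hvs) (by fun_prop)

attribute [fun_prop] okI_poly

theorem sz_listBool (b : List Bool) {n : ℕ} (h : b.length ≤ n) : sz b ≤ 4 * n + 1 := by
  have := sz_listBool_le b
  omega

theorem greedy_poly {vs : α → List (List ℤ)} (hvs : Poly vs) : Poly (fun a => greedy (vs a)) := by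
  unfold greedy
  refine foldlB (l := vs) (s := fun _ => []) (F := fun a acc _ => acc ++ [okI (vs a) (acc ++ [true])])
    (B := fun a => 4 * sz (vs a) + 1) hvs (by fun_prop) (by fun_prop)
    (((PB.const 4).mul (PB.sz hvs)).add (PB.const 1)) ?_
  intro a k hk
  apply sz_listBool
  have key : ∀ (l : List (List ℤ)) (acc : List Bool),
      (l.foldl (fun acc _ => acc ++ [okI (vs a) (acc ++ [true])]) acc).length =
        acc.length + l.length := by
    intro l
    induction l with
    | nil => intro acc; simp
    | cons x l ih => intro acc; rw [List.foldl_cons, ih]; simp; omega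
  rw [key]
  have h1 := length_lt_sz (vs a)
  simp only [List.length_nil, List.length_take]
  omega

theorem swp_poly {b : α → List Bool} {i j : α → ℕ} (hb : Poly b) (hi : Poly i) (hj : Poly j) :
    Poly (fun a => swp (b a) (i a) (j a)) := by
  unfold swp
  fun_prop

attribute [fun_prop] greedy_poly swp_poly

theorem stp_poly {vs : α → List (List ℤ)} {w : α → ℕ} {b : α → List Bool} {n : α → ℕ}
    (hvs : Poly vs) (hw : Poly w) (hb : Poly b) (hn : Poly n) :
    Poly (fun a => stp (vs a) (w a) (b a) (n a)) := by
  unfold stp
  fun_prop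

attribute [fun_prop] stp_poly

end Pool.Agent.NPC.SST
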