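import Pool.Agent.H741R2.SST.AlgPoly2
import Pool.Agent.H671R2.Search

/-!
# The body and the preparation run in polynomial time
-/

namespace Pool.Agent.NPC.SST

open Pool.Agent.NPC Pool.Agent.H741R2.SST

variable {α : Type} [TEnc α]

theorem bits_list_poly {β : Type} [TEnc β] {f : α → β} (hf : Poly f) :
    Poly (fun a => bits (f a)) := (R671.poly_bits (α := β)).comp hf

theorem round_poly {s : α → St} {r : α → List Bool} (hs : Poly s) (hr : Poly r) :
    Poly (fun a => Pool.Agent.H741R2.SST.round (s a) (r a)) := by
  have hD : UPoly (fun a => (s a).2.1.length) := UPoly.length (by fun_prop)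
  have hL : Poly (fun a => (s a).1) := by fun_prop
  have hP : UPoly (fun a => (s a).2.2.2.2.length) := UPoly.length (by fun_prop)
  have hw := wOf_poly hL
  have hw' := hw.toPoly
  have ht := tOf_poly hL hD
  have hv : Poly (fun a => valB (r a)) := Poly.valBits hr
  have h2D : Poly (fun a => 2 ^ (s a).2.1.length) := Poly.npow (Poly.const 2) hD
  have hn : Poly (fun a => List.replicate (s a).1.length ()) := UPoly.length hL
  have hch : Poly (fun a => chain (vecs (s a).1) (wOf (s a).1) (tOf (s a).1 (s a).2.1.length)
      (greedy (vecs (s a).1)) (valB (r a) / 2 ^ (s a).2.1.length)) :=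
    chain_poly (by fun_prop) hw' ht (by fun_prop) (by fun_prop)
  have hb := bases_poly hP (vecs_poly hL)
  have hWt : Poly (fun a => (2 * wOf (s a).1 * wOf (s a).1) ^ tOf (s a).1 (s a).2.1.length) :=
    Poly.npow (by fun_prop) ht
  have hcs := counts_poly (vecs_poly hL) hw hb ht
  have hwt := weights_poly (Poly.length hb) hD hWt hcs
  have hpk := pick_poly (Poly.zip hb hwt) hv
  unfold Pool.Agent.H741R2.SST.round
  refine Poly.ite (by fun_prop) (Poly.ite (by fun_prop) (Poly.inr (by fun_prop))
    (Poly.inl (bits_list_poly (by fun_prop)))) (Poly.ite (by fun_prop) (by fun_prop) ?_)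
  exact Poly.optElim (h := fun a b => Sum.inl (bits (outL (s a).1 b))) (Poly.snd hpk)
    (Poly.inr hs) (Poly.inl (bits_list_poly (by fun_prop)))

end Pool.Agent.NPC.SST
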