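import Pool.Agent.H741R2.SST.Exch
import Pool.Agent.H741R2.SST.Alg
import Pool.Agent.H13R2.Smp.Defs

/-!
# Spanning trees are the bases among the columns computed by the algorithm
-/

namespace Pool.Agent.H741R2.SST

open Finset Pool.Agent.H13R2.MB Pool.Agent.H13R2.Smp

/-! ### coefficients of the boundary -/

theorem filter_ne_eq_eraseIdx {f : List ℕ} (hf : f.Nodup) {i : ℕ} (hi : i < f.length) :
    f.filter (fun u => decide (u ≠ f[i])) = f.eraseIdx i := by
  rw [← hf.erase_getElem i hi, hf.erase_eq_filter]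
  apply List.filter_congr
  intro x _
  by_cases h : x = f[i] <;> simp [h]

theorem ent_eq2 {f : List ℕ} (hf : f.Nodup) (g : List ℕ) :
    ((ent g f : ℤ) : ℚ) = boundary f g := by
  unfold ent boundary
  rw [Finsupp.finset_sum_apply, List.head?_filter]
  cases hfind : List.find? (fun p : ℕ × ℕ => decide (g = f.filter (fun v => decide (v ≠ p.1))))
      f.zipIdx with
  | none =>
    rw [List.find?_eq_none] at hfind
    rw [Option.elim_none, Int.cast_zero, sum_eq_zero]
    intro i hi
    rw [mem_range] at hi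
    rw [Finsupp.single_apply, if_neg]
    intro h
    apply hfind (f[i], i) (by
      rw [List.mk_mem_zipIdx_iff_getElem?]
      exact List.getElem?_eq_getElem hi)
    rw [decide_eq_true_eq]
    simp only
    rw [filter_ne_eq_eraseIdx hf hi, h]
  | some p =>
    have h1 := List.find?_some hfind
    have h2 := List.mem_of_find?_eq_some hfind
    obtain ⟨v, i⟩ := p
    rw [List.mk_mem_zipIdx_iff_getElem?, List.getElem?_eq_some_iff] at h2
    obtain ⟨hi, hv⟩ := h2
    rw [decide_eq_true_eq] at h1
    simp only at h1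
    rw [← hv, filter_ne_eq_eraseIdx hf hi] at h1
    rw [Option.elim_some, sum_eq_single i]
    · rw [Finsupp.single_apply, if_pos h1.symm]
      simp only
      rcases Nat.even_or_odd i with he | ho
      · rw [if_pos (Nat.even_iff.1 he), he.neg_one_pow]; simp
      · rw [if_neg (by rw [Nat.odd_iff.1 ho]; norm_num), ho.neg_one_pow]; simp
    · intro j hj hji
      rw [mem_range] at hj
      rw [Finsupp.single_apply, if_neg]
      intro h
      rw [h1] at h
      rw [← filter_ne_eq_eraseIdx hf hi, ← filter_ne_eq_eraseIdx hf hj] at h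
      have h3 : f[j] ∈ f.filter (fun u => decide (u ≠ f[i])) := by
        rw [List.mem_filter]
        refine ⟨List.getElem_mem _, ?_⟩
        rw [decide_eq_true_eq]
        intro h4
        exact hji ((hf.getElem_inj_iff).1 h4)
      rw [← h] at h3
      simp at h3
    · intro h
      exact absurd (mem_range.2 hi) h

/-! ### the dimension -/

theorem le_topSize {L : List (List ℕ)} {f : List ℕ} (hf : f ∈ L) : f.length ≤ topSize L := by
  unfold topSize
  induction L with
  | nil => simp at hf
  | cons g L ih =>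
    rw [List.map_cons, List.foldr_cons]
    rcases List.mem_cons.1 hf with rfl | h
    · exact le_max_left _ _
    · exact (ih h).trans (le_max_right _ _)

theorem exists_topSize {L : List (List ℕ)} (h : 0 < topSize L) : ∃ f ∈ L, f.length = topSize L := by
  unfold topSize at h ⊢
  induction L with
  | nil => simp at h
  | cons g L ih =>
    rw [List.map_cons, List.foldr_cons] at h ⊢
    rcases le_total (List.foldr max 0 (List.map List.length L)) g.length with h1 | h1
    · rw [max_eq_left h1]
      exact ⟨g, by simp, rfl⟩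
    · rw [max_eq_right h1] at h ⊢
      obtain ⟨f, hf, h2⟩ := ih h
      exact ⟨f, List.mem_cons_of_mem _ hf, h2⟩

/-! ### the columns -/

section

variable {L : List (List ℕ)}

/-- the column vectors of the algorithm -/
noncomputable def vL (L : List (List ℕ)) (i : Fin L.length) : Fin L.length → ℚ :=
  fun j => if top L L[i] = true then ((ent L[j] L[i] : ℤ) : ℚ) else 0

theorem top_iff (h2 : 2 ≤ topSize L) (i : Fin L.length) :
    top L L[i] = true ↔ (L[i]).length = topSize L := by
  unfold top
  rw [List.all_eq_true]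
  constructor
  · intro h
    apply le_antisymm (le_topSize (List.getElem_mem _))
    obtain ⟨f, hf, h3⟩ := exists_topSize (L := L) (by omega)
    have h1 := h f hf
    rw [decide_eq_true_eq] at h1
    rw [← h3]
    exact h1
  · intro h g hg
    rw [decide_eq_true_eq, h]
    exact le_topSize hg

/-- vectors as chains -/
noncomputable def ext0 (L : List (List ℕ)) : (Fin L.length → ℚ) →ₗ[ℚ] (List ℕ →₀ ℚ) :=
  ∑ j : Fin L.length, (Finsupp.lsingle (L[j])).comp (LinearMap.proj j)

theorem ext0_apply (x : Fin L.length → ℚ) (σ : List ℕ) :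
    ext0 L x σ = ∑ j : Fin L.length, if L[j] = σ then x j else 0 := by
  unfold ext0
  rw [LinearMap.sum_apply, Finsupp.finset_sum_apply]
  apply sum_congr rfl
  intro j _
  rw [LinearMap.comp_apply, LinearMap.proj_apply, Finsupp.lsingle_apply, Finsupp.single_apply]

theorem ext0_at (hL : IsComplex L) (x : Fin L.length → ℚ) (j : Fin L.length) :
    ext0 L x L[j] = x j := by
  rw [ext0_apply, sum_eq_single j]
  · rw [if_pos rfl]
  · intro k _ hk
    rw [if_neg]
    intro h
    exact hk (Fin.ext ((hL.nodup.getElem_inj_iff).1 h))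
  · intro h
    exact absurd (mem_univ _) h

theorem ext0_inj (hL : IsComplex L) : Function.Injective (ext0 L) := by
  intro x y h
  funext j
  rw [← ext0_at hL x j, h, ext0_at hL y j]

theorem sub_nodup (hL : IsComplex L) (i : Fin L.length) : (L[i]).Nodup :=
  (hL.increasing _ (List.getElem_mem _)).imp (fun h => ne_of_lt h)

theorem boundary_top (hL : IsComplex L) (h2 : 2 ≤ topSize L) (i : Fin L.length)
    (hi : (L[i]).length = topSize L) : boundary L[i] = ext0 L (vL L i) := by
  have ht := (top_iff h2 i).2 hi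
  ext σ
  by_cases hσ : σ ∈ L
  · obtain ⟨j, hj, rfl⟩ := List.mem_iff_getElem.1 hσ
    have h3 := ext0_at hL (vL L i) ⟨j, hj⟩
    have h4 : L[(⟨j, hj⟩ : Fin L.length)] = L[j] := rfl
    rw [h4] at h3
    rw [h3]
    simp only [vL]
    rw [if_pos ht, ent_eq2 (sub_nodup hL i)]
    rfl
  · have h3 : ext0 L (vL L i) σ = 0 := by
      rw [ext0_apply, sum_eq_zero]
      intro j _
      rw [if_neg]
      rintro rfl
      exact hσ (List.getElem_mem _)
    rw [h3]
    unfold boundary
    rw [Finsupp.finset_sum_apply, sum_eq_zero]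
    intro k hk
    rw [mem_range] at hk
    rw [Finsupp.single_apply, if_neg]
    rintro rfl
    apply hσ
    apply hL.closed _ (List.getElem_mem (l := L) i.2) _ (List.eraseIdx_sublist _ _)
    intro h
    have h5 := List.length_eraseIdx_of_lt hk
    have h6 : (L[i].eraseIdx k).length = 0 := by
      rw [show L[i].eraseIdx k = [] from h]; rfl
    omega

theorem vL_notTop (h2 : 2 ≤ topSize L) (i : Fin L.length)
    (hi : (L[i]).length ≠ topSize L) : vL L i = 0 := by
  funext j
  simp only [vL, Pi.zero_apply]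
  rw [if_neg]
  rw [top_iff h2]
  exact hi

/-- the indices of the faces of top dimension in `Υ` -/
def idx (L Υ : List (List ℕ)) : Finset (Fin L.length) :=
  univ.filter (fun i => (L[i]).length = topSize L ∧ L[i] ∈ Υ)

theorem mem_idx {Υ : List (List ℕ)} {i : Fin L.length} :
    i ∈ idx L Υ ↔ (L[i]).length = topSize L ∧ L[i] ∈ Υ := by
  unfold idx; simp

theorem image_idx (hL : IsComplex L) (h2 : 2 ≤ topSize L) {Υ : List (List ℕ)}
    (hΥ : ∀ σ ∈ Υ, σ ∈ L) :
    boundary '' {σ | σ ∈ Υ ∧ σ.length = topSize L} =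
      ext0 L '' (vL L '' (idx L Υ : Set (Fin L.length))) := by
  ext x
  constructor
  · rintro ⟨σ, ⟨h3, h4⟩, rfl⟩
    obtain ⟨i, hi, rfl⟩ := List.mem_iff_getElem.1 (hΥ σ h3)
    refine ⟨_, ⟨⟨i, hi⟩, mem_coe.2 (mem_idx.2 ⟨h4, h3⟩), rfl⟩, ?_⟩
    exact (boundary_top hL h2 ⟨i, hi⟩ h4).symm
  · rintro ⟨_, ⟨i, hi, rfl⟩, rfl⟩
    rw [mem_coe, mem_idx] at hi
    rw [← boundary_top hL h2 i hi.1]
    exact ⟨L[i], ⟨hi.2, hi.1⟩, rfl⟩

theorem indep_idx (hL : IsComplex L) (h2 : 2 ≤ topSize L) {Υ : List (List ℕ)}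
    (hΥ : ∀ σ ∈ Υ, σ ∈ L) :
    LinearIndepOn ℚ (vL L) (idx L Υ : Set (Fin L.length)) ↔
      LinearIndepOn ℚ boundary {σ | σ ∈ Υ ∧ σ.length = topSize L} := by
  have hmem : ∀ i : ↥(idx L Υ : Set (Fin L.length)),
      (L[(i : Fin L.length)]).length = topSize L ∧ L[(i : Fin L.length)] ∈ Υ := by
    intro i
    have := i.2
    rw [mem_coe, mem_idx] at this
    exact this
  let σ : ↥(idx L Υ : Set (Fin L.length)) →
      ↥({σ | σ ∈ Υ ∧ σ.length = topSize L} : Set (List ℕ)) :=
    fun i => ⟨L[(i : Fin L.length)], (hmem i).2, (hmem i).1⟩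
  have hσ : Function.Bijective σ := by
    constructor
    · intro i j hij
      have h3 : L[(i : Fin L.length)] = L[(j : Fin L.length)] := Subtype.ext_iff.1 hij
      exact Subtype.ext (Fin.ext ((hL.nodup.getElem_inj_iff).1 h3))
    · rintro ⟨t, ht⟩
      obtain ⟨i, hi, h3⟩ := List.mem_iff_getElem.1 (hΥ t ht.1)
      refine ⟨⟨⟨i, hi⟩, ?_⟩, ?_⟩
      · rw [mem_coe, mem_idx]
        subst h3
        exact ⟨ht.2, ht.1⟩
      · exact Subtype.ext h3
  have e1 : ext0 L ∘ (fun i : ↥(idx L Υ : Set (Fin L.length)) => vL L i) =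
      (fun t : ↥({σ | σ ∈ Υ ∧ σ.length = topSize L} : Set (List ℕ)) => boundary t) ∘
        (Equiv.ofBijective σ hσ) := by
    funext i
    exact (boundary_top hL h2 i (hmem i).1).symm
  unfold LinearIndepOn
  rw [← LinearMap.linearIndependent_iff _ (LinearMap.ker_eq_bot.2 (ext0_inj hL)), e1,
    linearIndependent_equiv]

theorem isTree_iff (hL : IsComplex L) (h2 : 2 ≤ topSize L) {Υ : List (List ℕ)}
    (hΥ : Υ.Sublist L) (hsk : ∀ σ ∈ L, σ.length < topSize L → σ ∈ Υ) :
    SpanningTree L Υ ↔ IsB (vL L) (idx L Υ) := by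
  have hsub : ∀ σ ∈ Υ, σ ∈ L := fun σ hσ => hΥ.subset hσ
  have hspan : (∀ i, vL L i ∈ Submodule.span ℚ (vL L '' (idx L Υ : Set (Fin L.length)))) ↔
      ∀ σ ∈ L, σ.length = topSize L →
        boundary σ ∈ Submodule.span ℚ (boundary '' {τ | τ ∈ Υ ∧ τ.length = topSize L}) := by
    rw [image_idx hL h2 hsub, ← Submodule.map_span]
    constructor
    · intro h σ hσ hσt
      obtain ⟨i, hi, rfl⟩ := List.mem_iff_getElem.1 hσ
      have h3 := boundary_top hL h2 ⟨i, hi⟩ hσt
      have h4 : L[(⟨i, hi⟩ : Fin L.length)] = L[i] := rfl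
      rw [h4] at h3
      rw [h3]
      exact Submodule.mem_map_of_mem (h ⟨i, hi⟩)
    · intro h i
      by_cases h3 : (L[i]).length = topSize L
      · have h4 := h L[i] (List.getElem_mem _) h3
        rw [boundary_top hL h2 i h3, Submodule.mem_map] at h4
        obtain ⟨y, hy, hy2⟩ := h4
        rw [← ext0_inj hL hy2]
        exact hy
      · rw [vL_notTop h2 i h3]
        exact Submodule.zero_mem _
  constructor
  · intro h
    exact ⟨(indep_idx hL h2 hsub).2 h.indep, hspan.2 h.span⟩
  · intro h
    exact ⟨hΥ, hsk, (indep_idx hL h2 hsub).1 h.1, hspan.1 h.2⟩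

/-- a sublist of a list without repetition is determined by its elements -/
theorem sublist_eq_filter {α : Type} [DecidableEq α] {l l' : List α} (h : l'.Sublist l)
    (hl : l.Nodup) : l' = l.filter (fun x => decide (x ∈ l')) := by
  induction h with
  | slnil => rfl
  | @cons l₁ l₂ a h ih =>
    rw [List.nodup_cons] at hl
    have h1 : a ∉ l₁ := fun h' => hl.1 (h.subset h')
    rw [List.filter_cons, if_neg (by simpa using h1)]
    exact ih hl.2
  | @cons_cons l₁ l₂ a h ih =>
    rw [List.nodup_cons] at hl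
    rw [List.filter_cons, if_pos (by simp)]
    congr 1
    have h1 := ih hl.2
    rw [h1]
    apply List.filter_congr
    intro x hx
    rw [← h1]
    have : x ≠ a := by
      rintro rfl
      exact hl.1 hx
    simp [this]

theorem sublist_ext {α : Type} {l l₁ l₂ : List α} (h₁ : l₁.Sublist l)
    (h₂ : l₂.Sublist l) (hl : l.Nodup) (h : ∀ x, x ∈ l₁ ↔ x ∈ l₂) : l₁ = l₂ := by
  classical
  rw [sublist_eq_filter h₁ hl, sublist_eq_filter h₂ hl]
  apply List.filter_congr
  intro x _
  simp only [h x]

end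

end Pool.Agent.H741R2.SST
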