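import Pool.Agent.H741R2.SST.Mask
import Pool.Agent.H741R2.SST.Tree2
import Pool.Agent.H13R2.Smp.Bridge

/-!
# The bridge between the algorithm and the spanning trees
-/

namespace Pool.Agent.H741R2.SST

open Finset Pool.Agent.NPC Pool.Agent.H13R2.MB Pool.Agent.H13R2.Smp

section

variable {n m : ℕ} {vs : List (List ℤ)} {v : Fin n → Fin m → ℚ}

theorem isB_transfer (hn : vs.length = n) (hv : ∀ i, vv vs m i = v (Fin.cast hn i))
    (b : List Bool) : IsB (vv vs m) (em vs.length b) ↔ IsB v (em n b) := by
  subst hn
  have : vv vs m = v := funext fun i => hv i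
  rw [this]

theorem stp_cases' (hn : vs.length = n) (hv : ∀ i, vv vs m i = v (Fin.cast hn i))
    (hg : Good vs m) (w : ℕ) {b : List Bool}
    (hb : b.length = n) (hB : IsB v (em n b)) (a : ℕ) :
    stp vs w b a = b ∨ ∃ (i j : ℕ) (hi : i < n) (hj : j < n),
      a % 2 = 1 ∧ a / 2 % w = i ∧ a / 2 / w = j ∧ (⟨i, hi⟩ : Fin n) ∈ em n b ∧
      (⟨j, hj⟩ : Fin n) ∉ em n b ∧
      em n (stp vs w b a) = insert ⟨j, hj⟩ ((em n b).erase ⟨i, hi⟩) ∧
      IsB v (em n (stp vs w b a)) := by
  subst hn
  have : vv vs m = v := funext fun i => hv i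
  subst this
  exact stp_cases hg w hb hB a

/-- a step which is an exchange -/
theorem stp_exchange (hn : vs.length = n) (hv : ∀ i, vv vs m i = v (Fin.cast hn i))
    (hg : Good vs m) {w : ℕ} (hw : n ≤ w) {b b' : List Bool} (hb : b.length = n)
    (hb' : b'.length = n) (hB' : IsB v (em n b')) {i j : Fin n}
    (hi : i ∈ em n b) (hj : j ∉ em n b) (he : em n b' = insert j ((em n b).erase i)) :
    stp vs w b (2 * ((j : ℕ) * w + i) + 1) = b' := by
  subst hn
  have hvv : vv vs m = v := funext fun i => hv i
  subst hvv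
  have hw0 : 0 < w := by have := i.2; omega
  have hiw : (i : ℕ) < w := by have := i.2; omega
  have h1 : (2 * ((j : ℕ) * w + i) + 1) / 2 = (i : ℕ) + w * j := by
    rw [mul_comm (j : ℕ) w]; omega
  have h2 : ((i : ℕ) + w * j) % w = i := by
    rw [Nat.add_mul_mod_self_left, Nat.mod_eq_of_lt hiw]
  have h3 : ((i : ℕ) + w * j) / w = j := by
    rw [Nat.add_mul_div_left _ _ hw0, Nat.div_eq_of_lt hiw, zero_add]
  have hij : (i : ℕ) ≠ (j : ℕ) := by
    intro h
    apply hj
    rw [← Fin.ext h]
    exact hi
  have hsw : swp b i j = b' := by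
    apply em_inj (n := vs.length) (by rw [length_swp']; exact hb) hb'
    rw [em_swp hb i.2 j.2 hij, he]
  unfold stp
  rw [h1, h2, h3, hsw, if_pos]
  refine ⟨by omega, mem_em.1 hi, ?_, ?_⟩
  · rw [mem_em] at hj
    have hjb : (j : ℕ) < b.length := by have := j.2; omega
    rw [List.getD_eq_getElem?_getD, List.getElem?_eq_getElem hjb] at hj ⊢
    simpa using hj
  · rw [okI_iff hg]
    exact hB'.1

end

theorem ent_vals (g f : List ℕ) : ent g f = 0 ∨ ent g f = 1 ∨ ent g f = -1 := by
  unfold ent
  cases ((f.zipIdx.filter (fun p => decide (g = f.filter (fun v => decide (v ≠ p.1))))).head?) with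
  | none => left; rfl
  | some p =>
    simp only [Option.elim_some]
    split_ifs <;> simp

theorem length_vecs (L : List (List ℕ)) : (vecs L).length = L.length := by simp [vecs]

theorem good_vecs (L : List (List ℕ)) : Good (vecs L) L.length := by
  intro v hv
  unfold vecs at hv
  rw [List.mem_map] at hv
  obtain ⟨f, _, rfl⟩ := hv
  refine ⟨by simp, fun e he => ?_⟩
  rw [List.mem_map] at he
  obtain ⟨g, _, rfl⟩ := he
  split_ifs
  · exact ent_vals g f
  · left; rfl

theorem vv_vecs (L : List (List ℕ)) (i : Fin (vecs L).length) :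
    vv (vecs L) L.length i = vL L (Fin.cast (length_vecs L) i) := by
  funext j
  unfold vv vL
  have hi : (i : ℕ) < L.length := i.2.trans_eq (length_vecs L)
  have h1 : (vecs L)[i] = L.map (fun g => if top L (L[(i : ℕ)]'hi) = true
      then ent g (L[(i : ℕ)]'hi) else 0) := by
    have h0 : (vecs L)[(i : ℕ)]'i.2 = L.map (fun g => if top L (L[(i : ℕ)]'hi) = true
      then ent g (L[(i : ℕ)]'hi) else 0) := by
      simp only [vecs, List.getElem_map]
    exact h0
  rw [h1, List.getD_eq_getElem?_getD, List.getElem?_map, List.getElem?_eq_getElem j.2]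
  simp only [Option.map_some, Option.getD_some]
  have h2 : L[Fin.cast (length_vecs L) i] = L[(i : ℕ)]'hi := rfl
  rw [h2]
  split_ifs
  · rfl
  · simp

/-! ### the output lists -/

section

variable {L : List (List ℕ)}

theorem outL_sublist {b : List Bool} (hb : b.length = L.length) : (outL L b).Sublist L := by
  unfold outL
  have h1 : ((L.zip b).map (fun p => p.1)) = L := by
    rw [show (fun p : List ℕ × Bool => p.1) = Prod.fst from rfl, List.map_fst_zip]
    omega
  conv_rhs => rw [← h1]
  exact List.filter_sublist.map _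

theorem mem_outL {b : List Bool} (hb : b.length = L.length) {σ : List ℕ} :
    σ ∈ outL L b ↔ ∃ i : Fin L.length, L[i] = σ ∧ (i ∈ em L.length b ∨ ¬ top L L[i] = true) := by
  unfold outL
  rw [List.mem_map]
  constructor
  · rintro ⟨p, hp, rfl⟩
    rw [List.mem_filter] at hp
    obtain ⟨h1, h2⟩ := hp
    obtain ⟨k, hk, h3⟩ := List.mem_iff_getElem.1 h1
    rw [List.getElem_zip] at h3
    have hk' : k < L.length := by rw [List.length_zip] at hk; omega
    refine ⟨⟨k, hk'⟩, ?_, ?_⟩
    · rw [← h3]; rfl
    · rw [Bool.or_eq_true, Bool.not_eq_true'] at h2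
      rw [← h3] at h2
      rcases h2 with h2 | h2
      · left
        rw [mem_em, List.getD_eq_getElem?_getD, List.getElem?_eq_getElem (by simp only; omega)]
        exact h2
      · right
        simp only at h2
        have h4 : L[(⟨k, hk'⟩ : Fin L.length)] = L[k] := rfl
        rw [h4, h2]
        simp
  · rintro ⟨i, rfl, h⟩
    have hib : (i : ℕ) < b.length := by have := i.2; omega
    refine ⟨(L[i], b[(i : ℕ)]), ?_, rfl⟩
    rw [List.mem_filter]
    constructor
    · rw [List.mem_iff_getElem]
      exact ⟨i, by rw [List.length_zip]; have := i.2; omega, by rw [List.getElem_zip]; rfl⟩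
    · rw [Bool.or_eq_true, Bool.not_eq_true']
      rcases h with h | h
      · left
        rw [mem_em, List.getD_eq_getElem?_getD, List.getElem?_eq_getElem hib] at h
        exact h
      · right
        simpa using h

theorem isB_top (h2 : 2 ≤ topSize L) {T : Finset (Fin L.length)} (hT : IsB (vL L) T)
    {i : Fin L.length} (hi : i ∈ T) : (L[i]).length = topSize L := by
  by_contra hne
  have h3 := vL_notTop h2 i hne
  have h4 := hT.1.ne_zero (i := i) (mem_coe.2 hi)
  exact h4 h3

theorem idx_outL (hL : IsComplex L) (h2 : 2 ≤ topSize L) {b : List Bool}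
    (hb : b.length = L.length) (hB : IsB (vL L) (em L.length b)) :
    idx L (outL L b) = em L.length b := by
  ext i
  rw [mem_idx, mem_outL hb]
  constructor
  · rintro ⟨h3, j, hj, h4⟩
    have : j = i := Fin.ext ((hL.nodup.getElem_inj_iff).1 hj)
    subst this
    rcases h4 with h4 | h4
    · exact h4
    · exact absurd ((top_iff h2 j).2 h3) h4
  · intro hi
    exact ⟨isB_top h2 hB hi, i, rfl, Or.inl hi⟩

theorem outL_skel (h2 : 2 ≤ topSize L) {b : List Bool}
    (hb : b.length = L.length) : ∀ σ ∈ L, σ.length < topSize L → σ ∈ outL L b := by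
  intro σ hσ hlt
  obtain ⟨k, hk, rfl⟩ := List.mem_iff_getElem.1 hσ
  rw [mem_outL hb]
  refine ⟨⟨k, hk⟩, rfl, Or.inr ?_⟩
  rw [top_iff h2]
  have h4 : L[(⟨k, hk⟩ : Fin L.length)] = L[k] := rfl
  rw [h4]
  omega

end

/-- The bridge. -/
theorem bridge {L : List (List ℕ)} (hL : IsComplex L) (h2 : 2 ≤ topSize L) :
    ∃ F r e, Bridge L (bases (2 ^ L.length) (vecs L)) F r e := by
  classical
  have hP : 2 ^ (vecs L).length ≤ 2 ^ L.length := by rw [length_vecs]
  have hg := good_vecs L
  have hmem : ∀ b, b ∈ bases (2 ^ L.length) (vecs L) ↔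
      b.length = L.length ∧ IsB (vL L) (em L.length b) := by
    intro b
    rw [mem_bases hg hP, isB_transfer (length_vecs L) (vv_vecs L), length_vecs]
  have hw : L.length ≤ wOf L := (Nat.lt_size_self L.length).le
  refine ⟨FB (vL L), rk (vL L), em L.length, ?_⟩
  refine ⟨isBases_FB _, nodup_bases hP, ?_, ?_, ?_, ?_, ?_, ?_, ?_, ?_, ?_⟩
  · rw [hmem]
    refine ⟨(greedy_length hg).trans (length_vecs L), ?_⟩
    rw [← isB_transfer (length_vecs L) (vv_vecs L)]
    exact greedy_isB hg
  · intro b hb
    exact mem_FB.2 ((hmem b).1 hb).2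
  · intro b hb b' hb' h
    exact em_inj ((hmem b).1 hb).1 ((hmem b').1 hb').1 h
  · intro B hB
    exact ⟨mk L.length B, (hmem _).2 ⟨length_mk B, by rw [em_mk]; exact mem_FB.1 hB⟩, em_mk B⟩
  · intro b hb a _
    obtain ⟨h3, h4⟩ := (hmem b).1 hb
    rw [hmem]
    rcases stp_cases' (length_vecs L) (vv_vecs L) hg (wOf L) h3 h4 a with h | h
    · rw [h]; exact ⟨h3, h4⟩
    · obtain ⟨_, _, _, _, _, _, _, _, _, _, h5⟩ := h
      exact ⟨(length_stp' _ _ _ _).trans h3, h5⟩
  · -- the kernel
    intro b hb b' hb' hne
    obtain ⟨h3, h4⟩ := (hmem b).1 hb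
    obtain ⟨h3', h4'⟩ := (hmem b').1 hb'
    have hcard : (em L.length b).card = (em L.length b').card := by
      rw [(isB_iff.1 h4).2, (isB_iff.1 h4').2]
    have key : ∀ a, stp (vecs L) (wOf L) b a = b' → ∃ (i j : Fin L.length),
        a = 2 * ((j : ℕ) * wOf L + i) + 1 ∧ em L.length b \ em L.length b' = {i} ∧
        em L.length b' \ em L.length b = {j} := by
      intro a ha
      rcases stp_cases' (length_vecs L) (vv_vecs L) hg (wOf L) h3 h4 a with h | h
      · exact absurd (h.symm.trans ha) hne
      · obtain ⟨i, j, hi, hj, h5, h6, h7, h8, h9, h10, _⟩ := h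
        rw [ha] at h10
        refine ⟨⟨i, hi⟩, ⟨j, hj⟩, ?_, ?_, ?_⟩
        · have h11 := Nat.div_add_mod (a / 2) (wOf L)
          rw [h6, h7] at h11
          simp only
          rw [mul_comm j]
          omega
        · rw [h10]
          ext k
          simp only [mem_sdiff, mem_insert, mem_erase, mem_singleton, not_or, not_and]
          constructor
          · rintro ⟨h12, h13, h14⟩
            by_contra hk
            exact h14 hk h12
          · rintro rfl
            refine ⟨h8, ?_, fun h => absurd rfl h⟩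
            intro h
            rw [← h] at h9
            exact h9 h8
        · rw [h10]
          ext k
          simp only [mem_sdiff, mem_insert, mem_erase, mem_singleton]
          constructor
          · rintro ⟨h12 | ⟨_, h12⟩, h13⟩
            · exact h12
            · exact absurd h12 h13
          · rintro rfl
            exact ⟨Or.inl rfl, h9⟩
    split_ifs with hc
    · obtain ⟨i, hi⟩ := card_eq_one.1 hc
      have hc' : (em L.length b' \ em L.length b).card = 1 := by
        rw [← sdiff_card_symm hcard]; exact hc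
      obtain ⟨j, hj⟩ := card_eq_one.1 hc'
      have hib : i ∈ em L.length b \ em L.length b' := by rw [hi]; simp
      have hjb : j ∈ em L.length b' \ em L.length b := by rw [hj]; simp
      rw [mem_sdiff] at hib hjb
      have he : em L.length b' = insert j ((em L.length b).erase i) := by
        ext k
        rw [mem_insert, mem_erase]
        constructor
        · intro hk
          by_cases hkb : k ∈ em L.length b
          · right
            refine ⟨?_, hkb⟩
            rintro rfl
            exact hib.2 hk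
          · left
            have : k ∈ em L.length b' \ em L.length b := mem_sdiff.2 ⟨hk, hkb⟩
            rw [hj, mem_singleton] at this
            exact this
        · rintro (rfl | ⟨h5, h6⟩)
          · exact hjb.1
          · by_contra hk
            have : k ∈ em L.length b \ em L.length b' := mem_sdiff.2 ⟨h6, hk⟩
            rw [hi, mem_singleton] at this
            exact h5 this
      rw [card_eq_one]
      refine ⟨2 * ((j : ℕ) * wOf L + i) + 1, ?_⟩
      ext a
      rw [mem_filter, mem_singleton, mem_range]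
      constructor
      · rintro ⟨_, h5⟩
        obtain ⟨i', j', h6, h7, h8⟩ := key a h5
        rw [hi, singleton_inj] at h7
        rw [hj, singleton_inj] at h8
        rw [h6, h7, h8]
      · rintro rfl
        refine ⟨?_, stp_exchange (length_vecs L) (vv_vecs L) hg hw h3 h3' h4' hib.1 hjb.2 he⟩
        have h5 : (j : ℕ) + 1 ≤ wOf L := by have := j.2; omega
        have h6 : (i : ℕ) + 1 ≤ wOf L := by have := i.2; omega
        have h7 := Nat.mul_le_mul_right (wOf L) h5
        have h8 : 2 * wOf L * wOf L = 2 * (wOf L * wOf L) := by ring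
        rw [add_mul, one_mul] at h7
        omega
    · rw [card_eq_zero, filter_eq_empty_iff]
      intro a _ ha
      obtain ⟨i, _, _, h6, _⟩ := key a ha
      apply hc
      rw [h6, card_singleton]
  · intro b hb
    obtain ⟨h3, h4⟩ := (hmem b).1 hb
    rw [isTree_iff hL h2 (outL_sublist h3) (outL_skel h2 h3), idx_outL hL h2 h3 h4]
    exact h4
  · intro b hb b' hb' h
    obtain ⟨h3, h4⟩ := (hmem b).1 hb
    obtain ⟨h3', h4'⟩ := (hmem b').1 hb'
    apply em_inj h3 h3'
    rw [← idx_outL hL h2 h3 h4, ← idx_outL hL h2 h3' h4', h]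
  · intro Υ hΥ
    have h3 := (isTree_iff hL h2 hΥ.sub hΥ.skeleton).1 hΥ
    have h4 : IsB (vL L) (em L.length (mk L.length (idx L Υ))) := by rw [em_mk]; exact h3
    refine ⟨mk L.length (idx L Υ), (hmem _).2 ⟨length_mk _, h4⟩, ?_⟩
    apply sublist_ext (outL_sublist (length_mk _)) hΥ.sub hL.nodup
    intro σ
    rw [mem_outL (length_mk _), em_mk]
    constructor
    · rintro ⟨i, rfl, h5⟩
      rcases h5 with h5 | h5
      · exact (mem_idx.1 h5).2
      · rw [top_iff h2] at h5
        have h6 := le_topSize (L := L) (List.getElem_mem (l := L) i.2)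
        have h7 : (L[i]).length ≤ topSize L := h6
        exact hΥ.skeleton _ (List.getElem_mem _) (by omega)
    · intro hσ
      obtain ⟨k, hk, rfl⟩ := List.mem_iff_getElem.1 (hΥ.sub.subset hσ)
      refine ⟨⟨k, hk⟩, rfl, ?_⟩
      by_cases h5 : (L[k]).length = topSize L
      · exact Or.inl (mem_idx.2 ⟨h5, hσ⟩)
      · right
        rw [top_iff h2]
        exact h5

end Pool.Agent.H741R2.SST
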