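import Mathlib

/-!
# Division-free elimination modulo `m` (definitions)
-/

namespace Pool.Agent.H741R2.SST

/-- one elimination step modulo `m`: `none` if a vanishing vector was met -/
def elimStep (m : ℤ) : Option (List (List ℤ)) → Option (List (List ℤ))
  | none => none
  | some [] => some []
  | some (v :: us) =>
    match v.zipIdx.find? (fun p => decide (p.1 % m ≠ 0)) with
    | none => none
    | some p => some (us.map (fun u =>
        List.zipWith (fun a b => (p.1 * a - u.getD p.2 0 * b) % m) u v))

/-- the test modulo `m` -/
def indMod (m : ℤ) (vs : List (List ℤ)) : Bool := ((elimStep m)^[vs.length] (some vs)).isSome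

/-- the test: some modulus `m + 1`, `m < 2 (k² + 1)² + 1` works -/
def indQ (k : ℕ) (vs : List (List ℤ)) : Bool :=
  (List.range (2 * ((k * k + 1) * (k * k + 1)) + 1)).any (fun m => indMod (m + 1) vs)

end Pool.Agent.H741R2.SST
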