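import Pool.Agent.H13R2.MB.Gap

/-!
# The bases among finitely many vectors
-/

namespace Pool.Agent.H741R2.SST

open Finset Pool.Agent.H13R2.MB

variable {ι V : Type} [Fintype ι] [DecidableEq ι] [AddCommGroup V] [Module ℚ V]

/-- the subfamily indexed by `T` is a basis of the span of the family `v` -/
def IsB (v : ι → V) (T : Finset ι) : Prop :=
  LinearIndepOn ℚ v (T : Set ι) ∧ ∀ i, v i ∈ Submodule.span ℚ (v '' (T : Set ι))

open Classical in
/-- the family of bases -/
noncomputable def FB (v : ι → V) : Finset (Finset ι) := univ.filter (fun T => IsB v T)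

theorem mem_FB {v : ι → V} {T : Finset ι} : T ∈ FB v ↔ IsB v T := by
  unfold FB; simp

theorem IsB.span_eq {v : ι → V} {T : Finset ι} (h : IsB v T) :
    Submodule.span ℚ (v '' (T : Set ι)) = Submodule.span ℚ (Set.range v) := by
  apply le_antisymm
  · exact Submodule.span_mono (Set.image_subset_range _ _)
  · rw [Submodule.span_le]
    rintro _ ⟨i, rfl⟩
    exact h.2 i

/-- the rank -/
noncomputable def rk (v : ι → V) : ℕ := Module.finrank ℚ (Submodule.span ℚ (Set.range v))

theorem finrank_span_indep {v : ι → V} {T : Finset ι} (h : LinearIndepOn ℚ v (T : Set ι)) :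
    Module.finrank ℚ (Submodule.span ℚ (v '' (T : Set ι))) = T.card := by
  have h1 : LinearIndependent ℚ (fun i : (T : Set ι) => v i) := h
  have h2 := finrank_span_eq_card h1
  rw [show Set.range (fun i : (T : Set ι) => v i) = v '' (T : Set ι) by
    rw [Set.image_eq_range]] at h2
  rw [h2]
  simp

theorem isB_iff {v : ι → V} {T : Finset ι} :
    IsB v T ↔ LinearIndepOn ℚ v (T : Set ι) ∧ T.card = rk v := by
  constructor
  · intro h
    refine ⟨h.1, ?_⟩
    rw [← finrank_span_indep h.1, h.span_eq]
    rfl
  · rintro ⟨h1, h2⟩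
    refine ⟨h1, fun i => ?_⟩
    have h3 : Submodule.span ℚ (v '' (T : Set ι)) ≤ Submodule.span ℚ (Set.range v) :=
      Submodule.span_mono (Set.image_subset_range _ _)
    have : FiniteDimensional ℚ (Submodule.span ℚ (Set.range v)) :=
      FiniteDimensional.span_of_finite ℚ (Set.finite_range v)
    have h4 := Submodule.eq_of_le_of_finrank_eq h3 (by rw [finrank_span_indep h1, h2]; rfl)
    rw [h4]
    exact Submodule.subset_span ⟨i, rfl⟩

theorem card_le_rk {v : ι → V} {T : Finset ι} (h : LinearIndepOn ℚ v (T : Set ι)) :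
    T.card ≤ rk v := by
  rw [← finrank_span_indep h]
  have : FiniteDimensional ℚ (Submodule.span ℚ (Set.range v)) :=
    FiniteDimensional.span_of_finite ℚ (Set.finite_range v)
  exact Submodule.finrank_mono (Submodule.span_mono (Set.image_subset_range _ _))

theorem isBases_FB (v : ι → V) : IsBases (FB v) (rk v) := by
  constructor
  · intro T hT
    exact (isB_iff.1 (mem_FB.1 hT)).2
  · intro A hA B hB x hx
    rw [mem_sdiff] at hx
    have hA' := mem_FB.1 hA
    have hB' := mem_FB.1 hB
    -- some element of `B` is outside the span of `A \ x`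
    have h1 : ∃ y ∈ B, v y ∉ Submodule.span ℚ (v '' ((A.erase x : Finset ι) : Set ι)) := by
      by_contra hcon
      push Not at hcon
      have h2 : Submodule.span ℚ (v '' (B : Set ι)) ≤
          Submodule.span ℚ (v '' ((A.erase x : Finset ι) : Set ι)) := by
        rw [Submodule.span_le]
        rintro _ ⟨y, hy, rfl⟩
        exact hcon y hy
      have h3 : v x ∈ Submodule.span ℚ (v '' ((A.erase x : Finset ι) : Set ι)) := h2 (hB'.2 x)
      have h4 := hA'.1
      rw [linearIndepOn_iff_notMem_span] at h4
      have h5 := h4 x hx.1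
      apply h5
      rw [coe_erase] at h3
      exact h3
    obtain ⟨y, hyB, hy⟩ := h1
    have hyA : y ∉ A := by
      intro hyA
      apply hy
      apply Submodule.subset_span
      refine ⟨y, ?_, rfl⟩
      rw [coe_erase]
      refine ⟨hyA, ?_⟩
      rintro rfl
      exact hx.2 hyB
    refine ⟨y, mem_sdiff.2 ⟨hyB, hyA⟩, mem_FB.2 (isB_iff.2 ⟨?_, ?_⟩)⟩
    · rw [coe_insert]
      apply LinearIndepOn.insert _ hy
      exact hA'.1.mono (by rw [coe_erase]; exact Set.diff_subset)
    · rw [card_insert_of_notMem (fun h => hyA (mem_of_mem_erase h)), card_erase_of_mem hx.1,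
        Nat.sub_add_cancel (card_pos.2 ⟨x, hx.1⟩)]
      exact (isB_iff.1 hA').2

end Pool.Agent.H741R2.SST
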