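import Pool.Agent.H741R2.SST.Exch
import Pool.Agent.H741R2.SST.Alg
import Pool.Agent.H159R2.SSTE

/-!
# Masks and independence
-/

namespace Pool.Agent.H741R2.SST

open Finset Pool.Agent.NPC

theorem elimStep_same (m : ℤ) (o : Option (List (List ℤ))) :
    Pool.Agent.H159R2.SSTE.elimStep m o = elimStep m o := by
  cases o with
  | none => rfl
  | some l =>
    cases l with
    | nil => rfl
    | cons v us => rfl

theorem indQ_same (k : ℕ) (vs : List (List ℤ)) :
    Pool.Agent.H159R2.SSTE.indQ k vs = indQ k vs := by
  unfold Pool.Agent.H159R2.SSTE.indQ indQ Pool.Agent.H159R2.SSTE.indMod indMod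
  have : Pool.Agent.H159R2.SSTE.elimStep = elimStep := by
    funext m o
    exact elimStep_same m o
  rw [this]

/-- the support of a mask -/
def em (n : ℕ) (b : List Bool) : Finset (Fin n) := univ.filter (fun i => b.getD i false = true)

theorem mem_em {n : ℕ} {b : List Bool} {i : Fin n} : i ∈ em n b ↔ b.getD i false = true := by
  unfold em; simp

theorem sel_eq {α : Type} : ∀ (vs : List α) (b : List Bool),
    sel b vs = ((List.finRange vs.length).filter (fun i : Fin vs.length => b.getD i false)).map
      (fun i : Fin vs.length => vs[i]) := by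
  intro vs
  induction vs with
  | nil => intro b; simp [sel]
  | cons u us ih =>
    intro b
    cases b with
    | nil =>
      rw [List.filter_eq_nil_iff.2 (by simp)]
      rfl
    | cons x b =>
      have h1 : sel (x :: b) (u :: us) = if x = true then u :: sel b us else sel b us := by
        unfold sel
        rw [List.zip_cons_cons, List.filter_cons]
        split_ifs <;> rfl
      rw [h1, ih b]
      simp only [List.length_cons, List.finRange_succ, List.filter_cons, List.filter_map,
        List.getD_cons_zero, Fin.val_zero]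
      have h2 : ((fun i : Fin (us.length + 1) => (x :: b).getD i false) ∘ Fin.succ) =
          (fun i : Fin us.length => b.getD i false) := by
        funext i
        simp
      rw [h2]
      split_ifs
      · rw [List.map_cons, List.map_map]
        rfl
      · rw [List.map_map]
        rfl

theorem li_map {ι V : Type} [AddCommGroup V] [Module ℚ V] {β : Type} (F : β → V) (g : ι → β)
    (l : List ι) (hl : l.Nodup) :
    LinearIndependent ℚ (fun k : Fin (l.map g).length => F ((l.map g).get k)) ↔
      LinearIndepOn ℚ (fun i => F (g i)) {i | i ∈ l} := by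
  classical
  let e : Fin (l.map g).length ≃ {i // i ∈ l} := (finCongr (by simp)).trans (hl.getEquiv l)
  have h : (fun k : Fin (l.map g).length => F ((l.map g).get k)) =
      (fun i : {i // i ∈ l} => F (g i)) ∘ e := by
    funext k
    simp [e, List.Nodup.getEquiv]
  rw [h, linearIndependent_equiv]
  rfl

/-- the vectors of a list -/
noncomputable def vv (vs : List (List ℤ)) (m : ℕ) (i : Fin vs.length) : Fin m → ℚ :=
  fun j => (((vs[i]).getD j 0 : ℤ) : ℚ)

/-- lists of vectors with entries `0, 1, -1` -/
def Good (vs : List (List ℤ)) (m : ℕ) : Prop :=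
  ∀ v ∈ vs, v.length = m ∧ ∀ e ∈ v, e = 0 ∨ e = 1 ∨ e = -1

theorem okI_iff {vs : List (List ℤ)} {m : ℕ} (hv : Good vs m) (b : List Bool) :
    okI vs b = true ↔ LinearIndepOn ℚ (vv vs m) (em vs.length b : Set (Fin vs.length)) := by
  unfold okI
  rw [← indQ_same, Pool.Agent.H159R2.SSTE.E (n := m)]
  · rw [sel_eq]
    have h := li_map (F := fun v : List ℤ => fun j : Fin m => ((v.getD j 0 : ℤ) : ℚ))
      (fun i : Fin vs.length => vs[i])
      ((List.finRange vs.length).filter (fun i : Fin vs.length => b.getD i false))
      ((List.nodup_finRange _).filter _)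
    rw [h]
    have h2 : {i | i ∈ (List.finRange vs.length).filter
        (fun i : Fin vs.length => b.getD i false)} =
        (em vs.length b : Set (Fin vs.length)) := by
      ext i
      simp [em]
    rw [h2]
    rfl
  · rw [sel_eq, List.length_map]
    exact (List.length_filter_le _ _).trans (by simp)
  · intro v hv'
    rw [sel_eq, List.mem_map] at hv'
    obtain ⟨i, _, rfl⟩ := hv'
    exact hv _ (List.getElem_mem _)

theorem em_append {n : ℕ} {acc : List Bool} (h : acc.length < n) (x : Bool) :
    em n (acc ++ [x]) = if x = true then insert ⟨acc.length, h⟩ (em n acc) else em n acc := by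
  ext i
  have key : (acc ++ [x]).getD i false = if (i : ℕ) = acc.length then x else acc.getD i false := by
    rw [List.getD_eq_getElem?_getD, List.getD_eq_getElem?_getD, List.getElem?_append]
    split_ifs with h1 h2 h2
    · omega
    · rfl
    · simp [h2]
    · rw [List.getElem?_eq_none (by simp; omega), List.getElem?_eq_none (by omega)]
  rw [mem_em, key]
  have h3 : acc.getD acc.length false = false := by
    rw [List.getD_eq_getElem?_getD, List.getElem?_eq_none le_rfl]; rfl
  cases x with
  | true =>
    simp only [if_true, mem_insert, mem_em]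
    constructor
    · intro h1
      split_ifs at h1 with h2
      · exact Or.inl (Fin.ext h2)
      · exact Or.inr h1
    · rintro (rfl | h1)
      · simp
      · split_ifs
        · rfl
        · exact h1
  | false =>
    simp only [Bool.false_eq_true, if_false, mem_em]
    constructor
    · intro h1
      split_ifs at h1 with h2
      exact h1
    · intro h1
      rw [if_neg]
      · exact h1
      · intro h2
        rw [h2, h3] at h1
        exact absurd h1 (by simp)

theorem greedy_inv {vs : List (List ℤ)} {m : ℕ} (hv : Good vs m) : ∀ k ≤ vs.length,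
    ((vs.take k).foldl (fun acc _ => acc ++ [okI vs (acc ++ [true])]) []).length = k ∧
    LinearIndepOn ℚ (vv vs m) (em vs.length
      ((vs.take k).foldl (fun acc _ => acc ++ [okI vs (acc ++ [true])]) []) :
        Set (Fin vs.length)) ∧
    ∀ i : Fin vs.length, (i : ℕ) < k → vv vs m i ∈ Submodule.span ℚ (vv vs m '' (em vs.length
      ((vs.take k).foldl (fun acc _ => acc ++ [okI vs (acc ++ [true])]) []) :
        Set (Fin vs.length))) := by
  intro k
  induction k with
  | zero =>
    intro _
    refine ⟨by simp, ?_, fun i hi => by omega⟩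
    have : em vs.length ((vs.take 0).foldl
        (fun acc _ => acc ++ [okI vs (acc ++ [true])]) []) = ∅ := by
      ext i
      simp [em]
    rw [this]
    simp
  | succ k ih =>
    intro hk
    obtain ⟨h1, h2, h3⟩ := ih (by omega)
    rw [List.take_succ_eq_append_getElem (by omega), List.foldl_append]
    simp only [List.foldl_cons, List.foldl_nil]
    set acc := (vs.take k).foldl (fun acc _ => acc ++ [okI vs (acc ++ [true])]) [] with hacc
    have hlt : acc.length < vs.length := by omega
    have hok := okI_iff hv (acc ++ [true])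
    rw [em_append hlt true, if_pos rfl] at hok
    rw [em_append hlt]
    refine ⟨by simp [h1], ?_, ?_⟩
    · split_ifs with h4
      · exact hok.1 h4
      · exact h2
    · intro i hi
      by_cases hik : (i : ℕ) < k
      · split_ifs with h4
        · exact Submodule.span_mono (Set.image_mono (by
            rw [coe_insert]; exact Set.subset_insert _ _)) (h3 i hik)
        · exact h3 i hik
      · have hi' : i = ⟨acc.length, hlt⟩ := Fin.ext (by simp only; omega)
        split_ifs with h4
        · apply Submodule.subset_span
          exact ⟨i, by rw [hi']; simp, rfl⟩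
        · by_contra hcon
          apply h4
          rw [hok, coe_insert]
          rw [hi'] at hcon
          exact h2.insert hcon

theorem greedy_length {vs : List (List ℤ)} {m : ℕ} (hv : Good vs m) :
    (greedy vs).length = vs.length := by
  have h := (greedy_inv hv vs.length le_rfl).1
  rw [List.take_length] at h
  exact h

theorem greedy_isB {vs : List (List ℤ)} {m : ℕ} (hv : Good vs m) :
    IsB (vv vs m) (em vs.length (greedy vs)) := by
  have h := greedy_inv hv vs.length le_rfl
  rw [List.take_length] at h
  exact ⟨h.2.1, fun i => h.2.2 i i.2⟩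

theorem count_eq {n : ℕ} {b : List Bool} (hb : b.length = n) :
    (b.filter (fun x => x)).length = (em n b).card := by
  subst hb
  have h1 : b = (List.finRange b.length).map (fun i : Fin b.length => b.getD i false) := by
    apply List.ext_getElem
    · simp
    · intro i h1 h2
      simp [List.getElem?_eq_getElem h1]
  have h2 : (em b.length b) = ((List.finRange b.length).filter
      (fun i : Fin b.length => b.getD i false)).toFinset := by
    ext i
    simp [em]
  rw [h2, List.toFinset_card_of_nodup ((List.nodup_finRange _).filter _)]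
  conv_lhs => rw [h1]
  rw [List.filter_map, List.length_map]
  rfl

theorem em_inj {n : ℕ} {b b' : List Bool} (hb : b.length = n) (hb' : b'.length = n)
    (h : em n b = em n b') : b = b' := by
  apply List.ext_getElem (by omega)
  intro i h1 h2
  have h3 : (⟨i, by omega⟩ : Fin n) ∈ em n b ↔ (⟨i, by omega⟩ : Fin n) ∈ em n b' := by rw [h]
  rw [mem_em, mem_em] at h3
  simp only [List.getD_eq_getElem?_getD, List.getElem?_eq_getElem h1,
    List.getElem?_eq_getElem h2, Option.getD_some] at h3
  cases hx : b[i] <;> cases hy : b'[i] <;> simp_all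

/-- the mask of a set -/
def mk (n : ℕ) (T : Finset (Fin n)) : List Bool := (List.finRange n).map (fun i => decide (i ∈ T))

theorem length_mk {n : ℕ} (T : Finset (Fin n)) : (mk n T).length = n := by simp [mk]

theorem em_mk {n : ℕ} (T : Finset (Fin n)) : em n (mk n T) = T := by
  ext i
  rw [mem_em, mk, List.getD_eq_getElem?_getD, List.getElem?_eq_getElem (by simp)]
  simp

theorem dbl_spec {P k : ℕ} (h : 2 ^ (k + 1) ≤ P) {l : List (List Bool)} (h1 : l.length = 2 ^ k)
    (h2 : l.Nodup) (h3 : ∀ b, b ∈ l ↔ b.length = k) :
    (dbl P l).length = 2 ^ (k + 1) ∧ (dbl P l).Nodup ∧ ∀ b, b ∈ dbl P l ↔ b.length = k + 1 := by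
  unfold dbl
  rw [if_pos (by rw [h1, ← pow_succ']; exact h)]
  refine ⟨?_, ?_, ?_⟩
  · simp [List.length_flatMap, h1, pow_succ]
  · rw [List.nodup_flatMap]
    refine ⟨fun r _ => by simp, ?_⟩
    refine h2.imp ?_
    intro r r' hrr
    simp only [Function.onFun, List.disjoint_left]
    intro b hb hb'
    simp only [List.mem_cons, List.not_mem_nil, or_false] at hb hb'
    rcases hb with rfl | rfl <;> rcases hb' with h | h <;> simp at h <;> exact hrr h
  · intro b
    rw [List.mem_flatMap]
    constructor
    · rintro ⟨r, hr, hb⟩
      have := (h3 r).1 hr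
      simp only [List.mem_cons, List.not_mem_nil, or_false] at hb
      rcases hb with rfl | rfl <;> simp [this]
    · intro hb
      cases b with
      | nil => simp at hb
      | cons x b =>
        refine ⟨b, (h3 b).2 (by simpa using hb), ?_⟩
        cases x <;> simp

theorem allM_spec {P : ℕ} : ∀ n, 2 ^ n ≤ P → (allM P n).length = 2 ^ n ∧ (allM P n).Nodup ∧
    ∀ b, b ∈ allM P n ↔ b.length = n := by
  intro n
  unfold allM
  induction n with
  | zero =>
    intro _
    refine ⟨by simp, by simp, ?_⟩
    intro b
    simp
  | succ n ih =>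
    intro h
    have h' : 2 ^ n ≤ P := (Nat.pow_le_pow_right (by norm_num) (Nat.le_succ n)).trans h
    obtain ⟨h1, h2, h3⟩ := ih h'
    rw [Function.iterate_succ_apply']
    exact dbl_spec h h1 h2 h3

theorem mem_bases {P : ℕ} {vs : List (List ℤ)} {m : ℕ} (hv : Good vs m)
    (hP : 2 ^ vs.length ≤ P) (b : List Bool) :
    b ∈ bases P vs ↔ b.length = vs.length ∧ IsB (vv vs m) (em vs.length b) := by
  unfold bases
  rw [List.mem_filter, (allM_spec _ hP).2.2, Bool.and_eq_true, okI_iff hv, decide_eq_true_eq,
    count_eq (greedy_length hv)]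
  constructor
  · rintro ⟨h1, h2, h3⟩
    rw [count_eq h1] at h3
    refine ⟨h1, isB_iff.2 ⟨h2, ?_⟩⟩
    rw [h3]
    exact (isB_iff.1 (greedy_isB hv)).2
  · rintro ⟨h1, h2⟩
    refine ⟨h1, h2.1, ?_⟩
    rw [count_eq h1, (isB_iff.1 h2).2, (isB_iff.1 (greedy_isB hv)).2]

theorem nodup_bases {P : ℕ} {vs : List (List ℤ)} (hP : 2 ^ vs.length ≤ P) :
    (bases P vs).Nodup := (allM_spec _ hP).2.1.filter _

/-! ### moves -/

theorem getD_swp {b : List Bool} {i j k : ℕ} (hk : k < b.length) :
    (swp b i j).getD k false = if k = i then false else if k = j then true else b.getD k false := by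
  unfold swp
  rw [List.getD_eq_getElem?_getD, List.getD_eq_getElem?_getD, List.getElem?_map,
    List.getElem?_zipIdx, List.getElem?_eq_getElem hk]
  simp

theorem length_swp' (b : List Bool) (i j : ℕ) : (swp b i j).length = b.length := by
  unfold swp; simp

theorem em_swp {n : ℕ} {b : List Bool} (hb : b.length = n) {i j : ℕ} (hi : i < n) (hj : j < n)
    (hij : i ≠ j) : em n (swp b i j) = insert ⟨j, hj⟩ ((em n b).erase ⟨i, hi⟩) := by
  ext k
  rw [mem_em, getD_swp (by omega), mem_insert, mem_erase, mem_em]
  constructor
  · intro h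
    split_ifs at h with h1 h2
    · exact Or.inl (Fin.ext h2)
    · exact Or.inr ⟨fun h3 => h1 (by rw [h3]), h⟩
  · rintro (rfl | ⟨h1, h2⟩)
    · simp [Ne.symm hij]
    · rw [if_neg (fun h3 => h1 (Fin.ext h3))]
      split_ifs
      · rfl
      · exact h2

/-- the analysis of one step -/
theorem stp_cases {vs : List (List ℤ)} {m : ℕ} (hv : Good vs m) (w : ℕ) {b : List Bool}
    (hb : b.length = vs.length) (hB : IsB (vv vs m) (em vs.length b)) (a : ℕ) :
    stp vs w b a = b ∨ ∃ (i j : ℕ) (hi : i < vs.length) (hj : j < vs.length),
      a % 2 = 1 ∧ a / 2 % w = i ∧ a / 2 / w = j ∧ (⟨i, hi⟩ : Fin vs.length) ∈ em vs.length b ∧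
      (⟨j, hj⟩ : Fin vs.length) ∉ em vs.length b ∧
      em vs.length (stp vs w b a) =
        insert ⟨j, hj⟩ ((em vs.length b).erase ⟨i, hi⟩) ∧
      IsB (vv vs m) (em vs.length (stp vs w b a)) := by
  unfold stp
  split_ifs with h
  · obtain ⟨h1, h2, h3, h4⟩ := h
    right
    have hi : a / 2 % w < vs.length := by
      by_contra hcon
      rw [List.getD_eq_getElem?_getD, List.getElem?_eq_none (by omega)] at h2
      simp at h2
    have hj : a / 2 / w < vs.length := by
      by_contra hcon
      rw [List.getD_eq_getElem?_getD, List.getElem?_eq_none (by omega)] at h3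
      simp at h3
    have hjm : (⟨a / 2 / w, hj⟩ : Fin vs.length) ∉ em vs.length b := by
      rw [mem_em]
      rw [List.getD_eq_getElem?_getD, List.getElem?_eq_getElem (by omega)] at h3 ⊢
      simpa using h3
    have him : (⟨a / 2 % w, hi⟩ : Fin vs.length) ∈ em vs.length b := mem_em.2 h2
    have hij : a / 2 % w ≠ a / 2 / w := by
      intro hij
      apply hjm
      have : (⟨a / 2 / w, hj⟩ : Fin vs.length) = ⟨a / 2 % w, hi⟩ := Fin.ext hij.symm
      rw [this]
      exact him
    refine ⟨a / 2 % w, a / 2 / w, hi, hj, h1, rfl, rfl, him, hjm, em_swp hb hi hj hij, ?_⟩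
    rw [isB_iff, ← okI_iff hv]
    refine ⟨h4, ?_⟩
    rw [em_swp hb hi hj hij, card_insert_of_notMem (fun h => hjm (mem_of_mem_erase h)),
      card_erase_of_mem him, Nat.sub_add_cancel (card_pos.2 ⟨_, him⟩)]
    exact (isB_iff.1 hB).2
  · exact Or.inl rfl

theorem length_stp' (vs : List (List ℤ)) (w : ℕ) (b : List Bool) (a : ℕ) :
    (stp vs w b a).length = b.length := by
  unfold stp
  split_ifs
  · exact length_swp' _ _ _
  · rfl

end Pool.Agent.H741R2.SST
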