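import Pool.Agent.H671R2.PolyAuto
import Pool.Agent.H687R2.IntPoly

/-!
# Polynomially bounded sizes
-/

namespace Pool.Agent.NPC.SST

open Pool.Agent.NPC

variable {α β γ σ : Type} [TEnc α] [TEnc β] [TEnc γ] [TEnc σ]

attribute [fun_prop] Poly.iadd Poly.isub Poly.imul Poly.ineg Poly.ilt Poly.ile Poly.idiv
  Poly.natAbs

/-- polynomially bounded functions -/
def PB (f : α → ℕ) : Prop := ∃ q : Polynomial ℕ, ∀ a, f a ≤ q.eval (sz a)

theorem PB.const (n : ℕ) : PB (fun _ : α => n) := ⟨Polynomial.C n, fun a => by simp⟩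

theorem PB.add {f g : α → ℕ} (hf : PB f) (hg : PB g) : PB (fun a => f a + g a) := by
  obtain ⟨p, hp⟩ := hf
  obtain ⟨q, hq⟩ := hg
  exact ⟨p + q, fun a => by rw [Polynomial.eval_add]; exact Nat.add_le_add (hp a) (hq a)⟩

theorem PB.mul {f g : α → ℕ} (hf : PB f) (hg : PB g) : PB (fun a => f a * g a) := by
  obtain ⟨p, hp⟩ := hf
  obtain ⟨q, hq⟩ := hg
  exact ⟨p * q, fun a => by rw [Polynomial.eval_mul]; exact Nat.mul_le_mul (hp a) (hq a)⟩

theorem PB.mono {f g : α → ℕ} (hf : PB f) (h : ∀ a, g a ≤ f a) : PB g := by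
  obtain ⟨p, hp⟩ := hf
  exact ⟨p, fun a => (h a).trans (hp a)⟩

theorem PB.sz {f : α → β} (hf : Poly f) : PB (fun a => NPC.sz (f a)) := hf.sz_le

theorem PB.len {f : α → List β} (hf : Poly f) : PB (fun a => (f a).length) :=
  (PB.sz hf).mono fun a => (length_lt_sz _).le

theorem PB.u {n : α → ℕ} (hn : UPoly n) : PB n :=
  (PB.len hn).mono fun a => by simp

theorem PB.size {n : α → ℕ} (hn : Poly n) : PB (fun a => (n a).size) :=
  (PB.sz hn).mono fun a => by have := size_le_sz (n a); omega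

theorem iterB {n : α → ℕ} {s : α → σ} {F : α → σ → σ} {B : α → ℕ} (hn : UPoly n) (hs : Poly s)
    (hF : Poly (fun p : α × σ => F p.1 p.2)) (hB : PB B)
    (hq : ∀ a, ∀ k ≤ n a, sz ((F a)^[k] (s a)) ≤ B a) :
    Poly (fun a => (F a)^[n a] (s a)) := by
  obtain ⟨r, hr⟩ := hB
  refine (Poly.iterLen (l := fun a => List.replicate (n a) ()) hn hs hF r
    ?_).congr fun a => by simp
  intro a k hk
  rw [List.length_replicate] at hk
  exact (hq a k hk).trans (hr a)

theorem foldlB {l : α → List γ} {s : α → σ} {F : α → σ → γ → σ} {B : α → ℕ} (hl : Poly l)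
    (hs : Poly s) (hF : Poly (fun p : α × σ × γ => F p.1 p.2.1 p.2.2)) (hB : PB B)
    (hq : ∀ a, ∀ k ≤ (l a).length, sz (((l a).take k).foldl (F a) (s a)) ≤ B a) :
    Poly (fun a => (l a).foldl (F a) (s a)) := by
  obtain ⟨r, hr⟩ := hB
  exact Poly.foldl hl hs hF r fun a k hk => (hq a k hk).trans (hr a)

theorem uSize {n : α → ℕ} (hn : Poly n) : UPoly (fun a => (n a).size) :=
  (UPoly.length (Poly.natBits hn)).congr fun a => by simp only [Nat.size_eq_bits_len]

theorem imodU {f : α → ℤ} {n : α → ℕ} (hf : Poly f) (hn : Poly n) :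
    Poly (fun a => f a % (n a : ℤ)) :=
  (Poly.isub hf (Poly.imul (Poly.natCast hn) (Poly.idiv hf hn))).congr fun a => by
    rw [Int.emod_def]

attribute [fun_prop] imodU

end Pool.Agent.NPC.SST
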